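import Pool.Agent.W784.RR.Defs
import Pool.Agent.W784.PS.Calc
import Pool.Agent.Helper88.RB.P_max_principle

set_option autoImplicit false
open MeasureTheory Set Filter Topology
open scoped ENNReal NNReal

namespace Pool.Agent.W784.RR

open Pool.Agent.Helper88.RB Pool.Agent.W784.PS

theorem cont_c2 {f : ℝ → ℝ} {t : ℝ} (h : ContDiffAt ℝ 2 f t) :
    (∀ᶠ s in 𝓝 t, HasDerivAt f (deriv f s) s) ∧ HasDerivAt (deriv f) (deriv (deriv f) t) t := by
  constructor
  · have h1 : ∀ᶠ ε in 𝓝 t, ContDiffAt ℝ 2 f ε := h.eventually (by norm_num)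
    filter_upwards [h1] with ε hε
    exact (hε.differentiableAt (by norm_num)).hasDerivAt
  · have h2 : ContDiffAt ℝ 1 (fderiv ℝ f) t := h.fderiv_right (by norm_num)
    have h3 : DifferentiableAt ℝ (fderiv ℝ f) t := h2.differentiableAt (by norm_num)
    have h4 : DifferentiableAt ℝ (deriv f) t := by
      have : deriv f = fun x => fderiv ℝ f x 1 := by
        funext x; rw [fderiv_apply_one_eq_deriv]
      rw [this]
      exact h3.clm_apply (differentiableAt_const _)
    exact h4.hasDerivAt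

/-- First and second order conditions at a maximum of `h(U) + ε U - W`. -/
theorem max_dir {U W h : ℝ → ℝ} (cU : ContDiffAt ℝ 2 U 0) (cW : ContDiffAt ℝ 2 W 0)
    (ch : ContDiffAt ℝ 2 h (U 0)) {ε : ℝ}
    (hmax : IsLocalMax (fun t => h (U t) + ε * U t - W t) 0) :
    (deriv h (U 0) + ε) * deriv U 0 - deriv W 0 = 0 ∧
    deriv (deriv h) (U 0) * (deriv U 0) ^ 2 + (deriv h (U 0) + ε) * deriv (deriv U) 0 -
      deriv (deriv W) 0 ≤ 0 := by
  obtain ⟨a0, b0⟩ := c2_facts' cU
  obtain ⟨a1, b1⟩ := c2_facts' cW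
  obtain ⟨a2, b2⟩ := cont_c2 ch
  have hev : ∀ᶠ t in 𝓝 (0:ℝ), HasDerivAt h (deriv h (U t)) (U t) :=
    cU.continuousAt.eventually a2
  have d1 : ∀ᶠ t in 𝓝 (0:ℝ), HasDerivAt (fun t => h (U t) + ε * U t - W t)
      (deriv h (U t) * deriv U t + ε * deriv U t - deriv W t) t := by
    filter_upwards [a0, a1, hev] with t h0 h1 h2
    exact (((h2.comp t h0).add (h0.const_mul ε)).sub h1)
  have d2 : HasDerivAt (fun t => deriv h (U t) * deriv U t + ε * deriv U t - deriv W t)
      ((deriv (deriv h) (U 0) * deriv U 0) * deriv U 0 + deriv h (U 0) * deriv (deriv U) 0 +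
        ε * deriv (deriv U) 0 - deriv (deriv W) 0) 0 := by
    have h0 := a0.self_of_nhds
    have g := b2.comp (0:ℝ) h0
    exact (((g.mul b0).add (b0.const_mul ε)).sub b1)
  constructor
  · have h3 : deriv (fun t => h (U t) + ε * U t - W t) 0 = 0 := hmax.deriv_eq_zero
    rw [d1.self_of_nhds.deriv] at h3
    linarith
  · have hm : IsLocalMin (fun t => -(h (U t) + ε * U t - W t)) 0 := hmax.neg
    have h3 := second_ge' (F1 := fun t => -(deriv h (U t) * deriv U t + ε * deriv U t - deriv W t))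
      (c := -((deriv (deriv h) (U 0) * deriv U 0) * deriv U 0 + deriv h (U 0) * deriv (deriv U) 0 +
        ε * deriv (deriv U) 0 - deriv (deriv W) 0))
      (by filter_upwards [d1] with t ht using ht.neg) d2.neg hm
    nlinarith

end Pool.Agent.W784.RR
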