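import Pool.Agent.W784.RR.CalcDir
import Pool.Agent.Helper88.RB.P_PX_lim
import Pool.Agent.Helper88.RB.P_PX_ne_top
import Pool.Agent.Helper88.RB.P_UR_smooth
import Pool.Agent.Helper88.RB.P_UR_lap
import Pool.Agent.Helper88.RB.P_GR_pos
import Pool.Agent.Helper88.RB.P_equilibrium

set_option autoImplicit false
open MeasureTheory Set Filter Topology
open scoped ENNReal NNReal

namespace Pool.Agent.W784.RR

open Pool.Agent.Helper88.RB Pool.Agent.W784.PS

theorem UR_eq_ev {n : ℕ} {s : ℝ} (hs : 0 < s) {S : Set (E n)} (hS : IsCompact S)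
    {μ : Measure (E n)} [IsFiniteMeasure μ] (hμ : μ Sᶜ = 0) (x : E n) (y : ℝ)
    (hx : x ∉ S ∨ y ≠ 0) (e : E n) (t : ℝ) :
    (fun ε : ℝ => (PX s μ (x + ε • e) (y + ε * t)).toReal) =ᶠ[𝓝 0]
      (fun ε : ℝ => UR s μ (x + ε • e) (y + ε * t)) := by
  filter_upwards [aux_good hS.isClosed x y hx e t] with ε hε
  exact (PX_ne_top hs hS hμ _ _ hε).2

theorem UR_yy {n : ℕ} {s : ℝ} (hs : 0 < s) {S : Set (E n)} (hS : IsCompact S)
    {μ : Measure (E n)} [IsFiniteMeasure μ] (hμ : μ Sᶜ = 0) (x : E n) (hx : x ∉ S) :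
    deriv (deriv (fun ε : ℝ => UR s μ x (0 + ε))) 0 = - s * GR s μ x 0 := by
  have h := (UR_smooth hs hS hμ x 0 (Or.inl hx) 0 1).2.2
  simp only [smul_zero, add_zero, mul_one] at h
  rw [h]
  unfold GR
  rw [← integral_const_mul]
  congr 1
  funext w
  simp

theorem interior_contra {n : ℕ} {p q : ℝ} (hp : 0 < p) (hp2 : (n : ℝ) - 2 < p) (hpq : p < q)
    {S : Set (E n)} (hS : IsCompact S) {ν π : Measure (E n)} [IsFiniteMeasure ν]
    [IsFiniteMeasure π] (hν : ν Sᶜ = 0) (hπ : π Sᶜ = 0) (hν0 : ν univ ≠ 0) (x : E n) (y : ℝ)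
    (hx : x ∉ S ∨ y ≠ 0) {h : ℝ → ℝ} {ε N : ℝ} (hε : 0 < ε) (hN : 0 < N)
    (ch : ContDiffAt ℝ 2 h (UR q ν x y)) (h1 : 0 < deriv h (UR q ν x y))
    (h2 : deriv (deriv h) (UR q ν x y) = -(q - p) / N * deriv h (UR q ν x y))
    (hstar : (∑ j : Fin n, (deriv (fun ε : ℝ =>
        UR q ν (x + ε • EuclideanSpace.single j (1 : ℝ)) y) 0) ^ 2) +
      (deriv (fun ε : ℝ => UR q ν x (y + ε)) 0) ^ 2 ≤ q * N * GR q ν x y)
    (hmax : ∀ x' y', h ((PX q ν x' y').toReal) + ε * (PX q ν x' y').toReal -
      (PX p π x' y').toReal ≤ h ((PX q ν x y).toReal) + ε * (PX q ν x y).toReal -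
      (PX p π x y).toReal) : False := by
  have hq : 0 < q := hp.trans hpq
  have hG : 0 < GR q ν x y := GR_pos hq hS hν hν0 x y hx
  have loc : ∀ (e : E n) (t : ℝ), IsLocalMax (fun r : ℝ => h (UR q ν (x + r • e) (y + r * t)) +
      ε * UR q ν (x + r • e) (y + r * t) - UR p π (x + r • e) (y + r * t)) 0 := by
    intro e t
    filter_upwards [UR_eq_ev hq hS hν x y hx e t, UR_eq_ev hp hS hπ x y hx e t] with r h3 h4
    have h5 := (UR_eq_ev hq hS hν x y hx e t).self_of_nhds
    have h6 := (UR_eq_ev hp hS hπ x y hx e t).self_of_nhds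
    simp only [zero_smul, add_zero, zero_mul] at h5 h6 ⊢
    rw [← h3, ← h4, ← h5, ← h6]
    exact hmax _ _
  have key : ∀ (e : E n) (t : ℝ),
      (deriv h (UR q ν x y) + ε) * deriv (fun r : ℝ => UR q ν (x + r • e) (y + r * t)) 0 -
        deriv (fun r : ℝ => UR p π (x + r • e) (y + r * t)) 0 = 0 ∧
      deriv (deriv h) (UR q ν x y) *
          (deriv (fun r : ℝ => UR q ν (x + r • e) (y + r * t)) 0) ^ 2 +
        (deriv h (UR q ν x y) + ε) *
          deriv (deriv (fun r : ℝ => UR q ν (x + r • e) (y + r * t))) 0 -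
        deriv (deriv (fun r : ℝ => UR p π (x + r • e) (y + r * t))) 0 ≤ 0 := by
    intro e t
    have c1 := (UR_smooth hq hS hν x y hx e t).1
    have c2 := (UR_smooth hp hS hπ x y hx e t).1
    have := max_dir (h := h) c1 c2 (by simpa using ch) (loc e t)
    simpa using this
  have kx : ∀ j : Fin n,
      deriv (deriv h) (UR q ν x y) *
          (deriv (fun r : ℝ => UR q ν (x + r • EuclideanSpace.single j (1 : ℝ)) y) 0) ^ 2 +
        (deriv h (UR q ν x y) + ε) *
          deriv (deriv (fun r : ℝ => UR q ν (x + r • EuclideanSpace.single j (1 : ℝ)) y)) 0 -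
        deriv (deriv (fun r : ℝ => UR p π (x + r • EuclideanSpace.single j (1 : ℝ)) y)) 0 ≤ 0 := by
    intro j
    have := (key (EuclideanSpace.single j (1 : ℝ)) 0).2
    simpa only [mul_zero, add_zero] using this
  have ky : (deriv h (UR q ν x y) + ε) * deriv (fun r : ℝ => UR q ν x (y + r)) 0 -
        deriv (fun r : ℝ => UR p π x (y + r)) 0 = 0 ∧
      deriv (deriv h) (UR q ν x y) *
          (deriv (fun r : ℝ => UR q ν x (y + r)) 0) ^ 2 +
        (deriv h (UR q ν x y) + ε) *
          deriv (deriv (fun r : ℝ => UR q ν x (y + r))) 0 -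
        deriv (deriv (fun r : ℝ => UR p π x (y + r))) 0 ≤ 0 := by
    have := key 0 1
    simpa only [smul_zero, add_zero, mul_one] using this
  have lq := UR_lap hq hS hν x y hx
  have lp := UR_lap hp hS hπ x y hx
  have sx := Finset.sum_nonpos (s := (Finset.univ : Finset (Fin n))) fun j _ => kx j
  rw [Finset.sum_sub_distrib, Finset.sum_add_distrib, ← Finset.mul_sum, ← Finset.mul_sum] at sx
  rw [lq.1, lp.1] at ky
  rw [lq.1] at hstar
  obtain ⟨ky1, ky2⟩ := ky
  obtain ⟨_, lq2⟩ := lq
  obtain ⟨_, lp2⟩ := lp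
  have hGp0 : 0 ≤ GR p π x y := by
    unfold GR
    refine integral_nonneg fun w => Real.rpow_nonneg (by positivity) _
  by_cases hy : y = 0
  · subst hy
    have hxS : x ∉ S := by
      rcases hx with h | h
      · exact h
      · exact absurd rfl h
    have yq := UR_yy hq hS hν x hxS
    have yp := UR_yy hp hS hπ x hxS
    rw [yq] at ky2 lq2
    rw [yp] at ky2 lp2
    generalize (∑ j : Fin n, (deriv (fun ε : ℝ =>
        UR q ν (x + ε • EuclideanSpace.single j (1 : ℝ)) 0) 0) ^ 2) = A at *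
    generalize (∑ j : Fin n, deriv (deriv (fun ε : ℝ =>
        UR q ν (x + ε • EuclideanSpace.single j (1 : ℝ)) 0)) 0) = B at *
    generalize (∑ j : Fin n, deriv (deriv (fun ε : ℝ =>
        UR p π (x + ε • EuclideanSpace.single j (1 : ℝ)) 0)) 0) = D at *
    generalize GR q ν x 0 = G at *
    generalize GR p π x 0 = Gp at *
    rw [h2] at sx ky2
    generalize deriv h (UR q ν x 0) = d at *
    have hB : B = q * (q + 2 - n) * G := by linarith
    have hD : D = p * (p + 2 - n) * Gp := by linarith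
    have e1 : p * Gp ≤ (d + ε) * (q * G) := by nlinarith
    have e2 : p * (p + 2 - n) * Gp ≤ (p + 2 - n) * ((d + ε) * (q * G)) := by
      have : 0 < p + 2 - n := by linarith
      nlinarith
    have e3 : (q - p) / N * d * A ≤ (q - p) * d * (q * G) := by
      have hA : A ≤ q * N * G := by nlinarith
      have h3 : 0 ≤ (q - p) / N * d := by
        have : 0 < q - p := by linarith
        positivity
      calc (q - p) / N * d * A ≤ (q - p) / N * d * (q * N * G) := mul_le_mul_of_nonneg_left hA h3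
        _ = (q - p) * d * (q * G) := by field_simp
    have e4 : -(q - p) / N * d * A = -((q - p) / N * d * A) := by ring
    rw [e4, hB, hD] at sx
    have e5 : 0 < ε * (q * (q - p) * G) := by
      have : 0 < q - p := by linarith
      positivity
    nlinarith
  · have e0 : (deriv h (UR q ν x y) + ε) * (q * GR q ν x y) = p * GR p π x y := by
      have : y * ((deriv h (UR q ν x y) + ε) * (q * GR q ν x y) - p * GR p π x y) = 0 := by
        linarith
      rcases mul_eq_zero.1 this with h | h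
      · exact absurd h hy
      · linarith
    generalize (∑ j : Fin n, (deriv (fun ε : ℝ =>
        UR q ν (x + ε • EuclideanSpace.single j (1 : ℝ)) y) 0) ^ 2) = A at *
    generalize (∑ j : Fin n, deriv (deriv (fun ε : ℝ =>
        UR q ν (x + ε • EuclideanSpace.single j (1 : ℝ)) y)) 0) = B at *
    generalize (∑ j : Fin n, deriv (deriv (fun ε : ℝ =>
        UR p π (x + ε • EuclideanSpace.single j (1 : ℝ)) y)) 0) = D at *
    generalize deriv (deriv (fun ε : ℝ => UR q ν x (y + ε))) 0 = B' at *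
    generalize deriv (deriv (fun ε : ℝ => UR p π x (y + ε))) 0 = D' at *
    generalize GR q ν x y = G at *
    generalize GR p π x y = Gp at *
    rw [h2] at sx ky2
    generalize deriv h (UR q ν x y) = d at *
    have e3 : (q - p) / N * d * (A + (-q * y * G) ^ 2) ≤ (q - p) * d * (q * G) := by
      have h3 : 0 ≤ (q - p) / N * d := by
        have : 0 < q - p := by linarith
        positivity
      calc (q - p) / N * d * (A + (-q * y * G) ^ 2) ≤ (q - p) / N * d * (q * N * G) :=
            mul_le_mul_of_nonneg_left hstar h3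
        _ = (q - p) * d * (q * G) := by field_simp
    have e4 : -(q - p) / N * d * A + -(q - p) / N * d * (-q * y * G) ^ 2 =
      -((q - p) / N * d * (A + (-q * y * G) ^ 2)) := by ring
    have e5 : 0 < ε * (q * (q - p) * G) := by
      have : 0 < q - p := by linarith
      positivity
    have e6 : (d + ε) * B + (d + ε) * B' = (d + ε) * (q * (q + 1 - n) * G) := by
      rw [← lq2]; ring
    have e7 : D + D' = (p + 1 - n) * (p * Gp) := by rw [lp2]; ring
    rw [← e0] at e7
    nlinarith

end Pool.Agent.W784.RR
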