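import Pool.Agent.W784.RR.Defs

set_option autoImplicit false
open MeasureTheory Set Filter Topology
open scoped ENNReal NNReal

namespace Pool.Agent.W784.RR

open Pool.Agent.Helper88.RB

/-- Logarithmic energy (kernel `log ((diam K + 1)/|x-y|)`) minimised over probability measures. -/
noncomputable def LN {n : ℕ} (K : Set (E n)) : ℝ≥0∞ :=
  ⨅ (μ : Measure (E n)) (_ : μ Set.univ = 1 ∧ μ Kᶜ = 0),
    ∫⁻ x, ∫⁻ y, (if x = y then (⊤ : ENNReal) else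
      ENNReal.ofReal (Real.log ((Metric.diam K + 1) / dist x y))) ∂μ ∂μ

/-- The capacity of the problem, for all real `s`. -/
noncomputable def capF {n : ℕ} (s : ℝ) (K : Set (E n)) : ℝ :=
  if 0 < s then
    ((⨅ (μ : Measure (E n)) (_ : μ Set.univ = 1 ∧ μ Kᶜ = 0),
        ∫⁻ x, ∫⁻ y, (edist x y) ^ (-s) ∂μ ∂μ) ^ (-1 / s)).toReal
  else if s = 0 then
    (if LN K = ⊤ then 0 else (Metric.diam K + 1) * Real.exp (-(LN K).toReal))
  else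
    ((⨆ (μ : Measure (E n)) (_ : μ Set.univ = 1 ∧ μ Kᶜ = 0),
        ∫⁻ x, ∫⁻ y, (edist x y) ^ (-s) ∂μ ∂μ) ^ (-1 / s)).toReal

/-- `capF` through `EI`. -/
def PC0 : Prop := ∀ (n : ℕ) (s : ℝ) (K : Set (E n)), 0 < s →
  capF s K = (((EI s K)⁻¹) ^ (1 / s)).toReal

/-- Monotonicity in the exponent. -/
def PC1 : Prop := ∀ (n : ℕ) (p q : ℝ) (K : Set (E n)), 0 ≤ p → p ≤ q →
  IsCompact K → K.Nonempty → capF q K ≤ capF p K

/-- Continuity from the right in the exponent, up to a small neighbourhood. -/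
def PC2 : Prop := ∀ (n : ℕ) (p0 : ℝ) (K : Set (E n)), 1 ≤ n → 0 ≤ p0 → p0 < n →
  IsCompact K → K.Nonempty → ∀ ρ ε : ℝ, 0 < ρ → 0 < ε →
  ∃ δ : ℝ, 0 < δ ∧ ∀ p : ℝ, p0 < p → p < p0 + δ → capF p0 K - ε ≤ capF p (Metric.cthickening ρ K)

/-- Continuity for decreasing neighbourhoods. -/
def PC3 : Prop := ∀ (n : ℕ) (p : ℝ) (K : Set (E n)), 1 ≤ n → 0 ≤ p →
  IsCompact K → K.Nonempty → ∀ ε : ℝ, 0 < ε →
  ∃ ρ : ℝ, 0 < ρ ∧ capF p (Metric.cthickening ρ K) ≤ capF p K + ε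

/-- Scaling of balls. -/
def PC4 : Prop := ∀ (n : ℕ) (s r : ℝ), 1 ≤ n → s < n → 0 < r →
  capF s (Metric.closedBall (0 : E n) r) = r * capF s (Metric.closedBall (0 : E n) 1) ∧
  0 < capF s (Metric.closedBall (0 : E n) 1)

/-- Capacity and volume as the exponent tends to the dimension. -/
def PVol : Prop := ∀ (n : ℕ) (K : Set (E n)), 1 ≤ n → IsCompact K → K.Nonempty →
  ∀ ε p : ℝ, 0 < ε → p < n → ∃ q : ℝ, p < q ∧ (n : ℝ) - 2 < q ∧ 0 < q ∧ q < n ∧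
    ((volume K).toReal / (volume (Metric.closedBall (0 : E n) 1)).toReal) ^ (1 / (n : ℝ)) - ε ≤
      capF q K / capF q (Metric.closedBall (0 : E n) 1)

/-- Mollification. -/
def PMoll : Prop := ∀ (n : ℕ) (K : Set (E n)) (μ : Measure (E n)) (ρ : ℝ), 1 ≤ n →
  IsCompact K → μ univ = 1 → μ Kᶜ = 0 → 0 < ρ →
  ∃ μ' : Measure (E n), μ' univ = 1 ∧ μ' (Metric.cthickening ρ K)ᶜ = 0 ∧
    (∀ s : ℝ, 0 < s → s < n → ∃ M : ℝ≥0∞, M ≠ ∞ ∧ ∀ x, PE s μ' x ≤ M) ∧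
    (∀ s : ℝ, 0 < s → En s μ' ≤ En s μ) ∧
    (∀ R : ℝ, 0 < R → (∀ x ∈ Metric.cthickening ρ K, ∀ y ∈ Metric.cthickening ρ K, dist x y ≤ R) →
      ∫⁻ x, ∫⁻ y, (if x = y then (⊤ : ENNReal) else
        ENNReal.ofReal (Real.log (R / dist x y))) ∂μ' ∂μ' ≤
      ∫⁻ x, ∫⁻ y, (if x = y then (⊤ : ENNReal) else
        ENNReal.ofReal (Real.log (R / dist x y))) ∂μ ∂μ)

end Pool.Agent.W784.RR
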