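import Pool.Agent.W784.RR.Compare
import Pool.Agent.W784.RR.DefsC
import Pool.Agent.Helper88.RB.P_PX_asymp
import Pool.Agent.Helper88.RB.P_exists_min
import Pool.Agent.Helper88.RB.P_EI_pos
import Pool.Agent.W784.PS.Lim0

set_option autoImplicit false
open MeasureTheory Set Filter Topology
open scoped ENNReal NNReal

namespace Pool.Agent.W784.RR

open Pool.Agent.Helper88.RB Pool.Agent.W784.PS

theorem UR_pos {n : ℕ} {s : ℝ} {S : Set (E n)} (hS : IsCompact S)
    {μ : Measure (E n)} [IsFiniteMeasure μ] (hμ : μ Sᶜ = 0) (h0 : μ univ ≠ 0) (x : E n) (y : ℝ)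
    (hx : x ∉ S ∨ y ≠ 0) : 0 < UR s μ x y := by
  unfold UR
  have hae : ∀ᵐ w ∂μ, w ∈ S := by rw [ae_iff]; exact hμ
  have hres : μ.restrict S = μ := Measure.restrict_eq_self_of_ae_mem hae
  have hpos : ∀ w ∈ S, 0 < ‖x - w‖ ^ 2 + y ^ 2 := by
    intro w hw
    rcases hx with h | h
    · have : 0 < ‖x - w‖ := norm_pos_iff.2 fun h' => h (by rw [sub_eq_zero.1 h']; exact hw)
      positivity
    · have : 0 < y ^ 2 := by positivity
      positivity
  have hint : Integrable (fun w : E n => (‖x - w‖ ^ 2 + y ^ 2) ^ (-s / 2)) μ := by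
    have hc : ContinuousOn (fun w : E n => (‖x - w‖ ^ 2 + y ^ 2) ^ (-s / 2)) S := by
      refine ContinuousOn.rpow_const (by fun_prop) ?_
      intro w hw
      exact Or.inl (hpos w hw).ne'
    have := hc.integrableOn_compact (μ := μ) hS
    rwa [IntegrableOn, hres] at this
  rw [integral_pos_iff_support_of_nonneg_ae ?_ hint]
  · refine pos_iff_ne_zero.2 fun h => ?_
    apply h0
    have h2 : μ (Function.support fun w : E n => (‖x - w‖ ^ 2 + y ^ 2) ^ (-s / 2))ᶜ = 0 := by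
      refine measure_mono_null ?_ hμ
      intro w hw hwK
      apply hw
      rw [Function.mem_support]
      exact (Real.rpow_pos_of_pos (hpos w hwK) _).ne'
    refine le_antisymm ?_ zero_le
    calc μ univ ≤ μ (Function.support fun w : E n => (‖x - w‖ ^ 2 + y ^ 2) ^ (-s / 2)) +
          μ (Function.support fun w : E n => (‖x - w‖ ^ 2 + y ^ 2) ^ (-s / 2))ᶜ := by
          rw [← Set.union_compl_self (Function.support fun w : E n =>
            (‖x - w‖ ^ 2 + y ^ 2) ^ (-s / 2))]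
          exact measure_union_le _ _
      _ = 0 := by rw [h, h2, add_zero]
  · filter_upwards with w
    exact Real.rpow_nonneg (by positivity) _

/-- Comparison of potentials. -/
theorem compare_pot (hStar : PStar) {n : ℕ} {p q : ℝ} (hn : 1 ≤ n) (hp : 0 < p)
    (hp2 : (n : ℝ) - 2 < p) (hpq : p < q) (hqn : q < n)
    {K : Set (E n)} (hK : IsCompact K) {ν π : Measure (E n)} [IsFiniteMeasure ν]
    [IsFiniteMeasure π] (hν : ν Kᶜ = 0) (hπ : π Kᶜ = 0) (hν0 : ν univ ≠ 0)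
    (cν : Continuous (fun x : E n × ℝ => (PX q ν x.1 x.2).toReal))
    (cπ : Continuous (fun x : E n × ℝ => (PX p π x.1 x.2).toReal))
    (lν : ∀ x, PE q ν x ≤ 1) (oν : ∀ x ∈ K, PE q ν x = 1) (oπ : ∀ x ∈ K, PE p π x = 1)
    (sν : ∀ x y, (x ∉ K ∨ y ≠ 0) → (PX q ν x y).toReal < 1)
    {h : ℝ → ℝ} (hcont : ContinuousOn h (Icc 0 1)) (h0 : h 0 = 0) (h1 : h 1 = 1)
    (hd : ∀ t ∈ Ioo (0:ℝ) 1, ContDiffAt ℝ 2 h t ∧ 0 < deriv h t ∧
      ∃ κ ∈ Ioo (0:ℝ) 1, Ec n q κ = t ∧ 0 < Nc n q κ ∧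
        deriv (deriv h) t = -(q - p) / Nc n q κ * deriv h t) (x : E n) (y : ℝ) :
    h ((PX q ν x y).toReal) ≤ (PX p π x y).toReal := by
  have hq : 0 < q := hp.trans hpq
  have hq2 : (n : ℝ) - 2 < q := hp2.trans hpq
  have hone : ∀ x ∈ K, (PX q ν x 0).toReal = 1 := by
    intro x hx
    rw [aux_PX_zero, oν x hx, ENNReal.toReal_one]
  have hone' : ∀ x ∈ K, (PX p π x 0).toReal = 1 := by
    intro x hx
    rw [aux_PX_zero, oπ x hx, ENNReal.toReal_one]
  have hmem : ∀ x y, (PX q ν x y).toReal ∈ Icc (0:ℝ) 1 := by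
    intro x y
    refine ⟨ENNReal.toReal_nonneg, ?_⟩
    by_cases hxy : x ∉ K ∨ y ≠ 0
    · exact (sν x y hxy).le
    · push Not at hxy
      rw [hxy.2, hone x hxy.1]
  have hcomp : Continuous (fun x : E n × ℝ => h ((PX q ν x.1 x.2).toReal)) := by
    rw [continuous_iff_continuousAt]
    intro P
    have := (hcont _ (hmem P.1 P.2)).tendsto
    refine this.comp (tendsto_nhdsWithin_iff.2 ⟨cν.continuousAt, ?_⟩)
    exact Eventually.of_forall fun P' => hmem P'.1 P'.2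
  have lim1 := PX_lim hq hK hν
  have lim2 := PX_lim hp hK hπ
  have limh : Tendsto (fun x : E n × ℝ => h ((PX q ν x.1 x.2).toReal)) (cocompact (E n × ℝ))
      (𝓝 0) := by
    have := (hcont 0 ⟨le_rfl, zero_le_one⟩).tendsto
    rw [h0] at this
    refine this.comp (tendsto_nhdsWithin_iff.2 ⟨lim1, ?_⟩)
    exact Eventually.of_forall fun P' => hmem P'.1 P'.2
  have main : ∀ ε : ℝ, 0 < ε → h ((PX q ν x y).toReal) + ε * (PX q ν x y).toReal -
      (PX p π x y).toReal ≤ ε := by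
    intro ε hε
    by_contra hcon
    push Not at hcon
    have cD : Continuous (fun P : E n × ℝ => h ((PX q ν P.1 P.2).toReal) +
        ε * (PX q ν P.1 P.2).toReal - (PX p π P.1 P.2).toReal) :=
      (hcomp.add (continuous_const.mul cν)).sub cπ
    have lD : Tendsto (fun P : E n × ℝ => h ((PX q ν P.1 P.2).toReal) +
        ε * (PX q ν P.1 P.2).toReal - (PX p π P.1 P.2).toReal) (cocompact (E n × ℝ)) (𝓝 0) := by
      have := (limh.add (lim1.const_mul ε)).sub lim2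
      simpa using this
    have hev : ∀ᶠ P in cocompact (E n × ℝ), (fun P : E n × ℝ => h ((PX q ν P.1 P.2).toReal) +
        ε * (PX q ν P.1 P.2).toReal - (PX p π P.1 P.2).toReal) P ≤
        (fun P : E n × ℝ => h ((PX q ν P.1 P.2).toReal) +
        ε * (PX q ν P.1 P.2).toReal - (PX p π P.1 P.2).toReal) (x, y) := by
      filter_upwards [lD.eventually (gt_mem_nhds hε)] with P hP
      exact (hP.trans hcon).le
    obtain ⟨P, hP⟩ := cD.exists_forall_ge' (x, y) hev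
    have hP0 := hP (x, y)
    simp only at hP0
    have hPK : P.1 ∉ K ∨ P.2 ≠ 0 := by
      by_contra hc
      push Not at hc
      rw [hc.2, hone _ hc.1, hone' _ hc.1, h1] at hP0
      linarith
    have e1 : (PX q ν P.1 P.2).toReal = UR q ν P.1 P.2 := (PX_ne_top hq hK hν _ _ hPK).2
    have hu0 : 0 < UR q ν P.1 P.2 := UR_pos hK hν hν0 _ _ hPK
    have hu1 : UR q ν P.1 P.2 < 1 := by rw [← e1]; exact sν _ _ hPK
    obtain ⟨c1, c2, κ, hκ, c3, c4, c5⟩ := hd _ ⟨hu0, hu1⟩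
    have hst := hStar n q hn hq hq2 hqn K ν hK inferInstance hν lν P.1 P.2 hPK κ hκ c3
    exact interior_contra hp hp2 hpq hK hν hπ hν0 P.1 P.2 hPK hε c4 c1 c2 c5 hst
      (fun x' y' => hP (x', y'))
  have h3 : Tendsto (fun ε : ℝ => h ((PX q ν x y).toReal) + ε * (PX q ν x y).toReal -
      (PX p π x y).toReal) (𝓝[>] 0) (𝓝 (h ((PX q ν x y).toReal) + 0 * (PX q ν x y).toReal -
      (PX p π x y).toReal)) := by
    have hc : Continuous (fun ε : ℝ => h ((PX q ν x y).toReal) + ε * (PX q ν x y).toReal -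
      (PX p π x y).toReal) := by fun_prop
    exact (hc.tendsto 0).mono_left nhdsWithin_le_nhds
  have h4 : Tendsto (fun ε : ℝ => ε) (𝓝[>] 0) (𝓝 (0:ℝ)) :=
    (continuous_id.tendsto 0).mono_left nhdsWithin_le_nhds
  have h5 := le_of_tendsto_of_tendsto h3 h4 (by
    filter_upwards [self_mem_nhdsWithin] with ε hε using main ε hε)
  linarith

theorem Nc_pos {n : ℕ} {q : ℝ} (hB : 0 < Bc n q) {κ : ℝ} (hκ : κ ∈ Ioo (0:ℝ) 1) :
    0 < Nc n q κ := by
  unfold Nc
  have h1 : 0 < 1 - κ ^ 2 := by nlinarith [hκ.1, hκ.2]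
  have h2 := Real.rpow_pos_of_pos hκ.1 q
  have h3 := Real.rpow_pos_of_pos h1 (((n : ℝ) - q) / 2)
  positivity

/-- The main inequality for unions of balls. -/
theorem core_nice (hCalc : PCalc) (hStar : PStar) (hNewton : PNewton) (hH : PH)
    {n : ℕ} {p q : ℝ} (hn : 1 ≤ n) (hp : 0 < p)
    (hp2 : (n : ℝ) - 2 < p) (hpq : p < q) (hqn : q < n)
    {K : Set (E n)} (hK : IsCompact K) (hne : K.Nonempty) {δ : ℝ} (hδ : 0 < δ)
    (hball : ∀ x ∈ K, ∃ c, x ∈ Metric.closedBall c δ ∧ Metric.closedBall c δ ⊆ K) :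
    EI q K ≠ 0 ∧ EI q K ≠ ∞ ∧ EI p K ≠ 0 ∧ EI p K ≠ ∞ ∧
    mc n p / (mc n q) ^ (p / q) * (((EI q K)⁻¹).toReal) ^ (p / q) ≤ ((EI p K)⁻¹).toReal := by
  have hq : 0 < q := hp.trans hpq
  have hq2 : (n : ℝ) - 2 < q := hp2.trans hpq
  obtain ⟨a1, a2, ν, fν, nν, uν, cν, lν, oν, sν⟩ := hNewton n q hn hq hq2 hqn K hK hne δ hδ hball
  obtain ⟨b1, b2, π, fπ, nπ, uπ, cπ, lπ, oπ, sπ⟩ :=
    hNewton n p hn hp hp2 (hpq.trans hqn) K hK hne δ hδ hball
  refine ⟨a1, a2, b1, b2, ?_⟩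
  obtain ⟨h, h1, h2, h3, h4, h5, h6⟩ := hH n p q hp hpq hqn
  have hBq := (hCalc n q hq hqn).1
  have hν0 : ν univ ≠ 0 := by rw [uν]; exact ENNReal.inv_ne_zero.2 a2
  have hcmp := compare_pot hStar hn hp hp2 hpq hqn hK nν nπ hν0 cν cπ lν oν oπ sν h1 h2 h3
    (fun t ht => by
      obtain ⟨g1, g2, κ, g3, g4, g5⟩ := h5 t ht
      exact ⟨g1, g2, κ, g3, g4, Nc_pos hBq g3, g5⟩)
  -- a unit vector
  obtain ⟨e, he⟩ : ∃ e : E n, ‖e‖ = 1 :=
    ⟨EuclideanSpace.single ⟨0, hn⟩ (1 : ℝ), by simp⟩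
  have A1 := PX_asymp hq hK nν e he
  have A2 := PX_asymp hp hK nπ e he
  rw [← uν, ← uπ]
  obtain ⟨M, hM⟩ : ∃ M, M = (ν univ).toReal := ⟨_, rfl⟩
  have hMpos : 0 < M := by
    rw [hM]; exact ENNReal.toReal_pos hν0 (measure_ne_top _ _)
  have hupos : ∀ᶠ r : ℝ in atTop, 0 < (PX q ν (r • e) 0).toReal := by
    have := A1.eventually (lt_mem_nhds (by rw [← hM]; exact hMpos))
    filter_upwards [this, eventually_gt_atTop 0] with r hr hr0
    by_contra hcon
    have : (PX q ν (r • e) 0).toReal = 0 := le_antisymm (not_lt.1 hcon) ENNReal.toReal_nonneg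
    rw [this, mul_zero] at hr
    exact lt_irrefl _ hr
  have hlim0 : Tendsto (fun r : ℝ => (PX q ν (r • e) 0).toReal) atTop (𝓝[>] 0) := by
    refine tendsto_nhdsWithin_iff.2 ⟨?_, hupos⟩
    have h7 : Tendsto (fun r : ℝ => r ^ (-q) * (r ^ q * (PX q ν (r • e) 0).toReal)) atTop
        (𝓝 (0 * (ν univ).toReal)) :=
      (tendsto_rpow_neg_atTop hq).mul A1
    rw [zero_mul] at h7
    refine h7.congr' ?_
    filter_upwards [eventually_gt_atTop 0] with r hr
    rw [← mul_assoc, ← Real.rpow_add hr, neg_add_cancel, Real.rpow_zero, one_mul]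
  have B1 : Tendsto (fun r : ℝ => h ((PX q ν (r • e) 0).toReal) /
      ((PX q ν (r • e) 0).toReal) ^ (p / q)) atTop (𝓝 (mc n p / (mc n q) ^ (p / q))) :=
    h6.comp hlim0
  have B2 : Tendsto (fun r : ℝ => (r ^ q * (PX q ν (r • e) 0).toReal) ^ (p / q)) atTop
      (𝓝 (M ^ (p / q))) := by
    rw [hM]
    exact A1.rpow_const (Or.inl (by rw [← hM]; exact hMpos.ne'))
  have B3 := B1.mul B2
  have B4 : (fun r : ℝ => h ((PX q ν (r • e) 0).toReal) /
      ((PX q ν (r • e) 0).toReal) ^ (p / q) * (r ^ q * (PX q ν (r • e) 0).toReal) ^ (p / q))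
      =ᶠ[atTop] fun r : ℝ => r ^ p * h ((PX q ν (r • e) 0).toReal) := by
    filter_upwards [hupos, eventually_gt_atTop 0] with r hr hr0
    have e1 : (r ^ q * (PX q ν (r • e) 0).toReal) ^ (p / q) =
        r ^ p * ((PX q ν (r • e) 0).toReal) ^ (p / q) := by
      rw [Real.mul_rpow (Real.rpow_nonneg hr0.le _) hr.le, ← Real.rpow_mul hr0.le]
      congr 2
      field_simp
    rw [e1]
    have := (Real.rpow_pos_of_pos hr (p / q)).ne'
    field_simp
  rw [tendsto_congr' B4] at B3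
  rw [← hM]
  refine le_of_tendsto_of_tendsto B3 A2 ?_
  filter_upwards [eventually_gt_atTop 0] with r hr0
  exact mul_le_mul_of_nonneg_left (hcmp _ _) (Real.rpow_nonneg hr0.le _)

end Pool.Agent.W784.RR
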