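import Mathlib
import Pool.Agent.Helper88.RB.Defs

set_option autoImplicit false
open MeasureTheory Set Filter Topology
open scoped ENNReal NNReal

namespace Pool.Agent.W784.RR

open Pool.Agent.Helper88.RB

/-- The weight `v^(q-1) (1-v^2)^((n-q)/2-1)` on `(0,1)`. -/
noncomputable def wt (n : ℕ) (q v : ℝ) : ℝ := v ^ (q - 1) * (1 - v ^ 2) ^ (((n : ℝ) - q) / 2 - 1)

/-- Total integral of the weight. -/
noncomputable def Bc (n : ℕ) (q : ℝ) : ℝ := ∫ v in (0:ℝ)..1, wt n q v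

/-- Normalised incomplete integral (equal to `1` from `1` on). -/
noncomputable def Ec (n : ℕ) (q κ : ℝ) : ℝ := (∫ v in (0:ℝ)..(min κ 1), wt n q v) / Bc n q

/-- The same with an additional factor `v^2`. -/
noncomputable def Gc (n : ℕ) (q κ : ℝ) : ℝ := (∫ v in (0:ℝ)..(min κ 1), v ^ 2 * wt n q v) / Bc n q

/-- Mass of the equilibrium measure (potential `1`) of the unit ball. -/
noncomputable def mc (n : ℕ) (q : ℝ) : ℝ := 1 / (q * Bc n q)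

/-- The function `κ^q (1-κ^2)^((n-q)/2) / B`. -/
noncomputable def Nc (n : ℕ) (q κ : ℝ) : ℝ := κ ^ q * (1 - κ ^ 2) ^ (((n : ℝ) - q) / 2) / Bc n q

/-- Unnormalised equilibrium density of the unit ball. -/
noncomputable def dens (n : ℕ) (q : ℝ) (w : E n) : ℝ≥0∞ :=
  if ‖w‖ < 1 then ENNReal.ofReal ((1 - ‖w‖ ^ 2) ^ (-(((n : ℝ) - q) / 2))) else 0

/-- Facts of calculus on `Ec`, `Gc`. -/
def PCalc : Prop := ∀ (n : ℕ) (q : ℝ), 0 < q → q < n →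
  0 < Bc n q ∧ IntervalIntegrable (wt n q) volume 0 1 ∧ Ec n q 0 = 0 ∧
  (∀ κ, 1 ≤ κ → Ec n q κ = 1) ∧ ContinuousOn (Ec n q) (Ici 0) ∧
  StrictMonoOn (Ec n q) (Icc 0 1) ∧ (∀ κ, 0 ≤ κ → 0 ≤ Ec n q κ ∧ Ec n q κ ≤ 1) ∧
  (∀ κ ∈ Ioo (0:ℝ) 1, HasDerivAt (Ec n q) (wt n q κ / Bc n q) κ) ∧
  (∀ κ ∈ Ioo (0:ℝ) 1, HasDerivAt (Gc n q) (κ ^ 2 * wt n q κ / Bc n q) κ) ∧
  (∀ κ ∈ Icc (0:ℝ) 1, n * Gc n q κ = q * Ec n q κ - Nc n q κ) ∧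
  Tendsto (fun κ => Ec n q κ / κ ^ q) (𝓝[>] 0) (𝓝 (mc n q))

/-- Chord identity of M. Riesz. -/
def PChord : Prop := ∀ σ : ℝ, 0 < σ → σ < 1 → ∀ a b : ℝ, 0 < a → 0 < b →
  ∫⁻ t in Ioo (-a) b, ENNReal.ofReal (|t| ^ (2 * σ - 1) * ((t + a) * (b - t)) ^ (-σ)) =
    ∫⁻ t in Ioo (-1:ℝ) 1, ENNReal.ofReal (|t| ^ (2 * σ - 1) * ((t + 1) * (1 - t)) ^ (-σ))

/-- The potential of `dens` is a finite positive constant inside the unit ball. -/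
def PInside : Prop := ∀ (n : ℕ) (q : ℝ), 1 ≤ n → 0 < q → (n : ℝ) - 2 < q → q < n →
  (∫⁻ w, dens n q w * (ENNReal.ofReal (dist (0 : E n) w)) ^ (-q)) ≠ 0 ∧
  (∫⁻ w, dens n q w * (ENNReal.ofReal (dist (0 : E n) w)) ^ (-q)) ≠ ∞ ∧
  ∀ x : E n, ‖x‖ < 1 → ∫⁻ w, dens n q w * (ENNReal.ofReal (dist x w)) ^ (-q) =
    ∫⁻ w, dens n q w * (ENNReal.ofReal (dist (0 : E n) w)) ^ (-q)

/-- Equilibrium measure of the unit ball, with its potential everywhere off the sphere. -/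
def PFlat : Prop := ∀ (n : ℕ) (q : ℝ), 1 ≤ n → 0 < q → (n : ℝ) - 2 < q → q < n →
  ∃ ω : Measure (E n), IsFiniteMeasure ω ∧ ω (Metric.closedBall 0 1)ᶜ = 0 ∧
    (∀ z : E n, ‖z‖ < 1 → PE q ω z = 1) ∧
    (∀ z : E n, 1 < ‖z‖ → PE q ω z = ENNReal.ofReal (Ec n q ‖z‖⁻¹)) ∧
    ω univ = ENNReal.ofReal (mc n q)

/-- Test inequality at a point `w0` of the plane. -/
def PTest0 : Prop := ∀ (n : ℕ) (q : ℝ), 1 ≤ n → 0 < q → (n : ℝ) - 2 < q → q < n →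
  ∀ (S : Set (E n)) (ν : Measure (E n)), IsCompact S → IsFiniteMeasure ν → ν Sᶜ = 0 →
    (∀ z, PE q ν z ≤ 1) → ∀ w0 c : E n, w0 ≠ c → ∀ r : ℝ, 0 < r →
    ∫⁻ z, (ENNReal.ofReal (dist z w0)) ^ (-q) *
      ENNReal.ofReal (Ec n q (r * dist z w0 / dist z c)) ∂ν ≤ ENNReal.ofReal (Ec n q r)

/-- The mixture identity. -/
def PMix : Prop := ∀ (n : ℕ) (q : ℝ), 1 ≤ n → 0 < q → q < n →
  ∀ θ l : ℝ, 0 < θ → θ < 1 → 0 < l → l < 1 →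
    ∃ R : ℝ, 0 < R ∧ R < 1 ∧
      ∀ t : ℝ, 0 < t →
      ENNReal.ofReal (θ ^ (((n : ℝ) - q) / 2) * (θ + (1 - θ) * R ^ 2) ^ (-(n : ℝ) / 2)) *
          ENNReal.ofReal (Ec n q (R / t)) +
        (∫⁻ r in Ioo 0 R, ENNReal.ofReal (θ ^ (((n : ℝ) - q) / 2) * n * (1 - θ) * r *
          (θ + (1 - θ) * r ^ 2) ^ (-(n : ℝ) / 2 - 1)) * ENNReal.ofReal (Ec n q (r / t))) =
      ENNReal.ofReal (((1 - θ) * t ^ 2 + θ) ^ (-q / 2) *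
        Ec n q (l * Real.sqrt ((1 - θ) * t ^ 2 + θ) / t))

/-- Test inequality at a point `(x,y)` off the plane. -/
def PTestP : Prop := ∀ (n : ℕ) (q : ℝ), 1 ≤ n → 0 < q → (n : ℝ) - 2 < q → q < n →
  ∀ (S : Set (E n)) (ν : Measure (E n)), IsCompact S → IsFiniteMeasure ν → ν Sᶜ = 0 →
    (∀ z, PE q ν z ≤ 1) → ∀ x c : E n, x ≠ c → ∀ y : ℝ, 0 < y → ∀ l : ℝ, 0 < l → l < 1 →
    ∫⁻ z, ENNReal.ofReal ((‖z - x‖ ^ 2 + y ^ 2) ^ (-q / 2) *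
      Ec n q (l * Real.sqrt (‖z - x‖ ^ 2 + y ^ 2) / dist z c)) ∂ν ≤ ENNReal.ofReal (Ec n q l)

/-- The linear inequality at a point off the plane. -/
def PLin : Prop := ∀ (n : ℕ) (q : ℝ), 1 ≤ n → 0 < q → (n : ℝ) - 2 < q → q < n →
  ∀ (S : Set (E n)) (ν : Measure (E n)), IsCompact S → IsFiniteMeasure ν → ν Sᶜ = 0 →
    (∀ z, PE q ν z ≤ 1) → ∀ x c : E n, x ≠ c → ∀ y : ℝ, 0 < y → ∀ κ ∈ Ioo (0:ℝ) 1,
    Ec n q κ = UR q ν x y →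
    n / q * Gc n q κ ≤ ∫ z, ‖z - c‖ ^ 2 * (‖x - z‖ ^ 2 + y ^ 2) ^ (-q / 2 - 1) ∂ν

/-- The gradient inequality. -/
def PStar : Prop := ∀ (n : ℕ) (q : ℝ), 1 ≤ n → 0 < q → (n : ℝ) - 2 < q → q < n →
  ∀ (S : Set (E n)) (ν : Measure (E n)), IsCompact S → IsFiniteMeasure ν → ν Sᶜ = 0 →
    (∀ z, PE q ν z ≤ 1) → ∀ (x : E n) (y : ℝ), (x ∉ S ∨ y ≠ 0) → ∀ κ ∈ Ioo (0:ℝ) 1,
    Ec n q κ = UR q ν x y →
    (∑ j : Fin n, (deriv (fun ε : ℝ =>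
        UR q ν (x + ε • EuclideanSpace.single j (1 : ℝ)) y) 0) ^ 2) +
      (deriv (fun ε : ℝ => UR q ν x (y + ε)) 0) ^ 2 ≤ q * Nc n q κ * GR q ν x y

/-- Equilibrium measure of a union of balls. -/
def PNewton : Prop := ∀ (n : ℕ) (s : ℝ), 1 ≤ n → 0 < s → (n : ℝ) - 2 < s → s < n →
  ∀ (K : Set (E n)), IsCompact K → K.Nonempty → ∀ δ : ℝ, 0 < δ →
  (∀ x ∈ K, ∃ c, x ∈ Metric.closedBall c δ ∧ Metric.closedBall c δ ⊆ K) →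
  EI s K ≠ 0 ∧ EI s K ≠ ∞ ∧ ∃ ν : Measure (E n), IsFiniteMeasure ν ∧ ν Kᶜ = 0 ∧
    ν univ = (EI s K)⁻¹ ∧ Continuous (fun p : E n × ℝ => (PX s ν p.1 p.2).toReal) ∧
    (∀ x, PE s ν x ≤ 1) ∧ (∀ x ∈ K, PE s ν x = 1) ∧
    (∀ x y, (x ∉ K ∨ y ≠ 0) → (PX s ν x y).toReal < 1)

/-- The comparison function. -/
def PH : Prop := ∀ (n : ℕ) (p q : ℝ), 0 < p → p < q → q < n →
  ∃ h : ℝ → ℝ, ContinuousOn h (Icc 0 1) ∧ h 0 = 0 ∧ h 1 = 1 ∧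
    (∀ t ∈ Icc (0:ℝ) 1, 0 ≤ h t ∧ h t ≤ 1) ∧
    (∀ t ∈ Ioo (0:ℝ) 1, ContDiffAt ℝ 2 h t ∧ 0 < deriv h t ∧
      ∃ κ ∈ Ioo (0:ℝ) 1, Ec n q κ = t ∧
        deriv (deriv h) t = -(q - p) / Nc n q κ * deriv h t) ∧
    Tendsto (fun t => h t / t ^ (p / q)) (𝓝[>] 0) (𝓝 (mc n p / (mc n q) ^ (p / q)))

/-- Exact energy of the unit ball. -/
def PBall : Prop := ∀ (n : ℕ) (q : ℝ), 1 ≤ n → 0 < q → (n : ℝ) - 2 < q → q < n →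
  0 < mc n q ∧ EI q (Metric.closedBall (0 : E n) 1) = ENNReal.ofReal (1 / mc n q)

/-- Comparison of two Riesz capacities. -/
def PCore : Prop := ∀ (n : ℕ) (p q : ℝ), 1 ≤ n → 0 < p → (n : ℝ) - 2 < p → p < q → q < n →
  ∀ K : Set (E n), IsCompact K → K.Nonempty →
    ENNReal.ofReal (mc n p / (mc n q) ^ (p / q)) * ((EI q K)⁻¹) ^ (p / q) ≤ (EI p K)⁻¹

end Pool.Agent.W784.RR
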