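import Pool.Agent.W784.RR.Defs

set_option autoImplicit false
open MeasureTheory Set Filter Topology Polynomial
open scoped ENNReal NNReal

namespace Pool.Agent.W784.RR

open Pool.Agent.Helper88.RB

/-- Mean of `|1-z|^s` over the `L`-th roots of unity. -/
noncomputable def csL (s : ℝ) (L : ℕ) : ℝ :=
  (∑ j ∈ Finset.range L, ‖1 - Complex.exp (2 * Real.pi * Complex.I * j / L)‖ ^ s) / L

/-- Mean of `|1-z|^s` over the unit circle. -/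
noncomputable def cs (s : ℝ) : ℝ :=
  (∫ α in (0:ℝ)..(2 * Real.pi), ‖1 - Complex.exp (α * Complex.I)‖ ^ s) / (2 * Real.pi)

/-- Sum of `|z-z'|^s` over pairs of roots. -/
noncomputable def rootSum (P : ℂ[X]) (s : ℝ) : ℝ :=
  ((P.roots.product P.roots).map (fun z => ‖z.1 - z.2‖ ^ s)).sum

/-- Chebyshev condition: monic polynomials are not too small on `K`. -/
def Cheb (K : Set ℂ) (c : ℝ) : Prop :=
  ∀ p : ℂ[X], p.Monic → ∃ z ∈ K, c ^ p.natDegree ≤ ‖p.eval z‖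

/-- The energy with kernel `|x-y|^s` on the plane. -/
noncomputable def EC (s : ℝ) (μ : Measure ℂ) : ℝ≥0∞ :=
  ∫⁻ x, ∫⁻ y, ENNReal.ofReal (dist x y ^ s) ∂μ ∂μ

/-- Roots of `P = ζ` for a good value `ζ` are as spread out as roots of unity. -/
def PA1 : Prop := ∀ P : ℂ[X], P.Monic → 1 ≤ P.natDegree → ∀ r s δ : ℝ, 0 < r → 0 < s → 0 < δ →
  ∃ ζ : ℂ, ‖ζ‖ = r ∧
    r ^ (s / P.natDegree) * (P.natDegree : ℝ) ^ 2 * csL s P.natDegree - δ ≤ rootSum (P - C ζ) s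

/-- Lemniscates close to `K` from points of maximal product of distances. -/
def PA2 : Prop := ∀ (K : Set ℂ) (c : ℝ), IsCompact K → 0 < c → Cheb K c →
  ∀ (ρ : ℝ) (N : ℕ), 0 < ρ → 2 ≤ N → ∃ P : ℂ[X], P.Monic ∧ P.natDegree = N ∧
    ∀ z : ℂ, ‖P.eval z‖ ≤ c ^ (N - 1) * ρ / N → z ∈ Metric.cthickening ρ K

/-- Main lower bound near `K`. -/
def PA3 : Prop := ∀ (K : Set ℂ) (c : ℝ), IsCompact K → 0 < c → Cheb K c →
  ∀ s ρ δ : ℝ, 0 < s → 0 < ρ → 0 < δ → ∃ μ : Measure ℂ, IsProbabilityMeasure μ ∧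
    μ (Metric.cthickening ρ K)ᶜ = 0 ∧ ENNReal.ofReal (c ^ s * cs s - δ) ≤ EC s μ

/-- Passing to the limit. -/
def PA4 : Prop := ∀ (K : Set ℂ) (s t : ℝ), IsCompact K → K.Nonempty → 0 < s →
  (∀ ρ δ : ℝ, 0 < ρ → 0 < δ → ∃ μ : Measure ℂ, IsProbabilityMeasure μ ∧
    μ (Metric.cthickening ρ K)ᶜ = 0 ∧ ENNReal.ofReal (t - δ) ≤ EC s μ) →
  ∃ μ : Measure ℂ, IsProbabilityMeasure μ ∧ μ Kᶜ = 0 ∧ ENNReal.ofReal t ≤ EC s μ

/-- Energies on the closed unit disc and behaviour of `cs`. -/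
def PA5 : Prop :=
  (∀ (s : ℝ) (μ : Measure (E 2)), 0 < s → s ≤ 2 → IsProbabilityMeasure μ →
    μ (Metric.closedBall 0 1)ᶜ = 0 →
    ∫⁻ x, ∫⁻ y, ENNReal.ofReal (dist x y ^ s) ∂μ ∂μ ≤ ENNReal.ofReal (cs s)) ∧
  (∀ (s : ℝ) (μ : Measure (E 2)), 2 ≤ s → IsProbabilityMeasure μ →
    μ (Metric.closedBall 0 1)ᶜ = 0 →
    ∫⁻ x, ∫⁻ y, ENNReal.ofReal (dist x y ^ s) ∂μ ∂μ ≤ ENNReal.ofReal (2 ^ (s - 1))) ∧
  (∀ t : ℝ, t < 2 → ∃ s : ℝ, 0 < s ∧ t < (cs s) ^ (1 / s)) ∧ (∀ s : ℝ, 0 < s → 0 < cs s)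

/-- The Chebyshev condition from a Riesz equilibrium measure. -/
def PA6 : Prop := ∀ (K : Set ℂ) (q : ℝ) (ν : Measure ℂ), IsCompact K → 0 < q →
  IsFiniteMeasure ν → ν Kᶜ = 0 → ν univ ≠ 0 →
  (∀ w : ℂ, ∫⁻ z, (ENNReal.ofReal (dist w z)) ^ (-q) ∂ν ≤ 1) →
  Cheb K ((ν univ).toReal ^ (1 / q))

end Pool.Agent.W784.RR
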