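import Pool.Agent.W784.RR.Region2

set_option autoImplicit false
open MeasureTheory Set Filter Topology
open scoped ENNReal NNReal

namespace Pool.Agent.W784.RR

open Pool.Agent.Helper88.RB Pool.Agent.W784.PS

theorem ne_of_cap {n : ℕ} {s : ℝ} {K : Set (E n)} (h : 0 < capF s K) : K.Nonempty := by
  by_contra hcon
  rw [not_nonempty_iff_eq_empty] at hcon
  subst hcon
  have hno : ∀ μ : Measure (E n), ¬ (μ Set.univ = 1 ∧ μ (∅ : Set (E n))ᶜ = 0) := by
    rintro μ ⟨h1, h2⟩
    rw [compl_empty, h1] at h2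
    exact one_ne_zero h2
  unfold capF LN at h
  simp only [hno, iInf_false, iInf_top, iSup_false, bot_eq_zero, if_true] at h
  split_ifs at h with h1 h2
  · rw [ENNReal.top_rpow_of_neg (by rw [neg_div]; exact neg_neg_of_pos (by positivity))] at h
    simp at h
  · exact lt_irrefl _ h
  · rcases lt_or_eq_of_le (not_lt.1 h1) with h3 | h3
    · have : 0 < -1 / s := div_pos_of_neg_of_neg (by norm_num) h3
      have h4 : (⨆ (_ : Measure (E n)), (⊥ : ℝ≥0∞)) = 0 := by simp
      simp [ENNReal.zero_rpow_of_pos this] at h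
    · exact h2 h3

/-- Everything together, in terms of `capF`. -/
theorem all_cap (h0 : PC0) (h1 : PC1) (h2 : PC2) (h3 : PC3) (h4 : PC4) (hB : PBall)
    (hV : PVol) (hCalc : PCalc) (hStar : PStar) (hNewton : PNewton) (hH : PH)
    (a3 : PA3) (a4 : PA4) (a5 : PA5) (a6 : PA6) (hD : PDisc)
    {n : ℕ} (hn : 1 ≤ n) {p q : ℝ} (hpq : p < q)
    (hreg : (0 ≤ p ∧ (n : ℝ) - 2 ≤ p ∧ q < n) ∨ (n = 2 ∧ p < 0 ∧ 0 ≤ q ∧ q < 2))
    {K : Set (E n)} (hK : IsCompact K) (hpos : 0 < capF p K) :
    capF q K / capF p K ≤ capF q (Metric.closedBall (0 : E n) 1) /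
        capF p (Metric.closedBall (0 : E n) 1) ∧
      (volume K).toReal ^ (1 / (n : ℝ)) / capF p K ≤
        (volume (Metric.closedBall (0 : E n) 1)).toReal ^ (1 / (n : ℝ)) /
          capF p (Metric.closedBall (0 : E n) 1) := by
  have hne := ne_of_cap hpos
  have hnpos : (0:ℝ) < n := by exact_mod_cast hn
  have hvolB : 0 < (volume (Metric.closedBall (0 : E n) 1)).toReal := by
    have : Nonempty (Fin n) := ⟨⟨0, hn⟩⟩
    refine ENNReal.toReal_pos ?_ (isCompact_closedBall _ _).measure_lt_top.ne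
    exact (Metric.measure_closedBall_pos volume (0 : E n) one_pos).ne'
  have hvsplit : ((volume K).toReal / (volume (Metric.closedBall (0 : E n) 1)).toReal) ^
      (1 / (n : ℝ)) = (volume K).toReal ^ (1 / (n : ℝ)) /
        (volume (Metric.closedBall (0 : E n) 1)).toReal ^ (1 / (n : ℝ)) :=
    Real.div_rpow ENNReal.toReal_nonneg ENNReal.toReal_nonneg _
  have hvB : 0 < (volume (Metric.closedBall (0 : E n) 1)).toReal ^ (1 / (n : ℝ)) :=
    Real.rpow_pos_of_pos hvolB _
  rcases hreg with ⟨hp, hp2, hqn⟩ | ⟨rfl, hp, hq0, hq2⟩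
  · have hbp : 0 < capF p (Metric.closedBall (0 : E n) 1) := (h4 n p 1 hn (hpq.trans hqn) one_pos).2
    have g1 := cap_closed h0 h1 h2 h3 h4 hB hCalc hStar hNewton hH hn hp hp2 hpq hqn hK hne
    have g2 := vol_closed h0 h1 h2 h3 h4 hB hV hCalc hStar hNewton hH hn hp hp2 (hpq.trans hqn)
      hK hne
    constructor
    · rw [div_le_div_iff₀ hpos hbp]
      linarith
    · rw [hvsplit, mul_div_assoc', div_le_iff₀ hvB] at g2
      rw [div_le_div_iff₀ hpos hbp]
      linarith
  · obtain ⟨s, hs⟩ : ∃ s, s = -p := ⟨_, rfl⟩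
    have hps : p = -s := by rw [hs, neg_neg]
    have hs0 : 0 < s := by rw [hs]; linarith
    obtain ⟨c, c1, c2, c3⟩ := neg_bound h0 h2 hNewton a3 a4 a5 a6 hK hne hs0
    rw [← hps] at c2 c3
    have hbp : 0 < capF p (Metric.closedBall (0 : E 2) 1) :=
      (h4 2 p 1 hn (by push_cast; linarith) one_pos).2
    have hb0 : 1 ≤ capF 0 (Metric.closedBall (0 : E 2) 1) := hD
    have hk0 : 0 ≤ capF 0 K := capF_nonneg _ _
    have hbq : 0 ≤ capF q (Metric.closedBall (0 : E 2) 1) := capF_nonneg _ _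
    have g1 : capF 0 (Metric.closedBall (0 : E 2) 1) * capF q K ≤
        capF q (Metric.closedBall (0 : E 2) 1) * capF 0 K := by
      rcases hq0.eq_or_lt with h | h
      · rw [← h]
      · exact cap_closed h0 h1 h2 h3 h4 hB hCalc hStar hNewton hH hn le_rfl (by norm_num) h
          (by push_cast; exact hq2) hK hne
    have g2 := vol_closed h0 h1 h2 h3 h4 hB hV hCalc hStar hNewton hH hn le_rfl
      (by norm_num) (by norm_num) hK hne
    constructor
    · rw [div_le_div_iff₀ hpos hbp]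
      have e1 : capF q K ≤ capF q (Metric.closedBall (0 : E 2) 1) * capF 0 K := by
        refine le_trans ?_ g1
        exact le_mul_of_one_le_left (capF_nonneg _ _) hb0
      calc capF q K * capF p (Metric.closedBall (0 : E 2) 1) ≤
            (capF q (Metric.closedBall (0 : E 2) 1) * capF 0 K) * c :=
            mul_le_mul e1 c2 hbp.le (mul_nonneg hbq hk0)
        _ = capF q (Metric.closedBall (0 : E 2) 1) * (c * capF 0 K) := by ring
        _ ≤ capF q (Metric.closedBall (0 : E 2) 1) * capF p K := mul_le_mul_of_nonneg_left c3 hbq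
    · rw [hvsplit, mul_div_assoc', div_le_iff₀ hvB] at g2
      rw [div_le_div_iff₀ hpos hbp]
      obtain ⟨v, hv⟩ : ∃ v, v = (volume K).toReal ^ (1 / ((2 : ℕ) : ℝ)) := ⟨_, rfl⟩
      obtain ⟨vb, hvb⟩ : ∃ vb, vb =
        (volume (Metric.closedBall (0 : E 2) 1)).toReal ^ (1 / ((2 : ℕ) : ℝ)) := ⟨_, rfl⟩
      rw [← hv, ← hvb] at g2 ⊢
      rw [← hvb] at hvB
      have hv0 : 0 ≤ v := by rw [hv]; exact Real.rpow_nonneg ENNReal.toReal_nonneg _
      have e1 : v ≤ capF 0 K * vb := by
        refine le_trans ?_ g2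
        exact le_mul_of_one_le_left hv0 hb0
      calc v * capF p (Metric.closedBall (0 : E 2) 1) ≤ (capF 0 K * vb) * c :=
            mul_le_mul e1 c2 hbp.le (mul_nonneg hk0 hvB.le)
        _ = vb * (c * capF 0 K) := by ring
        _ ≤ vb * capF p K := mul_le_mul_of_nonneg_left c3 hvB.le

end Pool.Agent.W784.RR
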