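import Pool.Agent.W784.RR.Region1
import Pool.Agent.W784.RR.DefsA

set_option autoImplicit false
open MeasureTheory Set Filter Topology
open scoped ENNReal NNReal

namespace Pool.Agent.W784.RR

open Pool.Agent.Helper88.RB Pool.Agent.W784.PS

/-- Identification of the plane with the complex numbers. -/
noncomputable def phi : ℂ ≃ₗᵢ[ℝ] E 2 := Complex.orthonormalBasisOneI.repr

theorem cheb_mono {K : Set ℂ} {c c' : ℝ} (h : Cheb K c) (h0 : 0 ≤ c') (h1 : c' ≤ c) :
    Cheb K c' := by
  intro p hp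
  obtain ⟨z, hz, h2⟩ := h p hp
  exact ⟨z, hz, (pow_le_pow_left₀ h0 h1 _).trans h2⟩

theorem phi_meas : Measurable (phi : ℂ → E 2) := phi.continuous.measurable
theorem phi_symm_meas : Measurable (phi.symm : E 2 → ℂ) := phi.symm.continuous.measurable

theorem kern_meas (s : ℝ) : Measurable (fun p : E 2 × E 2 => ENNReal.ofReal (dist p.1 p.2 ^ s)) := by
  fun_prop

theorem energy_map {μ : Measure ℂ} [IsProbabilityMeasure μ] (s : ℝ) :
    ∫⁻ x, ∫⁻ y, ENNReal.ofReal (dist x y ^ s) ∂(μ.map phi) ∂(μ.map phi) = EC s μ := by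
  unfold EC
  have : IsProbabilityMeasure (μ.map phi) := Measure.isProbabilityMeasure_map phi_meas.aemeasurable
  rw [lintegral_map ?_ phi_meas]
  · refine lintegral_congr fun x => ?_
    rw [lintegral_map ?_ phi_meas]
    · refine lintegral_congr fun y => ?_
      rw [phi.dist_map]
    · fun_prop
  · exact (kern_meas s).lintegral_prod_right'

/-- Riesz equilibrium measures give the Chebyshev condition. -/
theorem cheb_of_cap (h0 : PC0) (hN : PNewton) (h6 : PA6) {K : Set (E 2)} (hK : IsCompact K)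
    (hne : K.Nonempty) {ρ q : ℝ} (hρ : 0 < ρ) (hq : 0 < q) (hq2 : q < 2) :
    Cheb (phi.symm '' (Metric.cthickening ρ K)) (capF q (Metric.cthickening ρ K)) := by
  have hKc : IsCompact (Metric.cthickening ρ K) := hK.cthickening
  have hKne : (Metric.cthickening ρ K).Nonempty := hne.mono (Metric.self_subset_cthickening _)
  obtain ⟨a1, a2, ν, fν, nν, uν, _, lν, _, _⟩ := hN 2 q (by norm_num) hq
    (by push_cast; linarith) (by push_cast; exact hq2) _ hKc hKne ρ hρ (thick_ball hK hρ)
  have hfin : IsFiniteMeasure (ν.map phi.symm) := inferInstance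
  have hun : (ν.map phi.symm) univ = (EI q (Metric.cthickening ρ K))⁻¹ := by
    rw [Measure.map_apply phi_symm_meas MeasurableSet.univ, preimage_univ, uν]
  have h := h6 (phi.symm '' (Metric.cthickening ρ K)) q (ν.map phi.symm)
    (hKc.image phi.symm.continuous) hq hfin ?_ ?_ ?_
  · rw [hun] at h
    rw [capF_eq h0 hq]
    exact h
  · rw [Measure.map_apply phi_symm_meas
      (hKc.image phi.symm.continuous).isClosed.measurableSet.compl]
    refine measure_mono_null ?_ nν
    intro x hx hxK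
    exact hx (mem_image_of_mem _ hxK)
  · rw [hun]
    exact ENNReal.inv_ne_zero.2 a2
  · intro w
    rw [lintegral_map (by fun_prop) phi_symm_meas]
    refine le_trans (le_of_eq ?_) (lν (phi w))
    unfold PE
    refine lintegral_congr fun x => ?_
    congr 2
    rw [← phi.dist_map w (phi.symm x), LinearIsometryEquiv.apply_symm_apply]

/-- Main lower bound for energies with positive powers. -/
theorem partA (h0 : PC0) (h2 : PC2) (hN : PNewton) (a3 : PA3) (a4 : PA4) (h6 : PA6)
    {K : Set (E 2)} (hK : IsCompact K) (hne : K.Nonempty) {s : ℝ} (hs : 0 < s)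
    (_hcs : 0 < cs s) :
    ∃ μ : Measure (E 2), IsProbabilityMeasure μ ∧ μ Kᶜ = 0 ∧
      ENNReal.ofReal (capF 0 K ^ s * cs s) ≤
        ∫⁻ x, ∫⁻ y, ENNReal.ofReal (dist x y ^ s) ∂μ ∂μ := by
  have hK' : IsCompact (phi.symm '' K) := hK.image phi.symm.continuous
  have hne' : (phi.symm '' K).Nonempty := hne.image _
  have hc0 : 0 ≤ capF 0 K := capF_nonneg _ _
  have key : ∃ μ : Measure ℂ, IsProbabilityMeasure μ ∧ μ (phi.symm '' K)ᶜ = 0 ∧
      ENNReal.ofReal (capF 0 K ^ s * cs s) ≤ EC s μ := by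
    refine a4 _ s _ hK' hne' hs ?_
    intro ρ δ hρ hδ
    rcases hc0.eq_or_lt with h | hcpos
    · obtain ⟨z, hz⟩ := hne'
      refine ⟨Measure.dirac z, inferInstance, ?_, ?_⟩
      · rw [Measure.dirac_apply' _ (Metric.isClosed_cthickening).measurableSet.compl]
        have : z ∈ Metric.cthickening ρ (phi.symm '' K) := Metric.self_subset_cthickening _ hz
        simp [this]
      · rw [← h, Real.zero_rpow hs.ne', zero_mul, zero_sub, ENNReal.ofReal_of_nonpos (by linarith)]
        exact zero_le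
    · -- choose a smaller value of the capacity
      have hcont : ContinuousAt (fun t : ℝ => t ^ s * cs s) (capF 0 K) := by
        refine ContinuousAt.mul ?_ continuousAt_const
        exact continuousAt_id.rpow_const (Or.inl hcpos.ne')
      have hev : ∀ᶠ t in 𝓝 (capF 0 K), capF 0 K ^ s * cs s - δ / 2 < t ^ s * cs s :=
        hcont.eventually (lt_mem_nhds (by linarith))
      obtain ⟨ε, hε, hball⟩ := Metric.eventually_nhds_iff.1 hev
      obtain ⟨c, hc1, hc2⟩ : ∃ c, c = capF 0 K - min (ε / 2) (capF 0 K / 2) ∧ 0 < c := by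
        refine ⟨_, rfl, ?_⟩
        have := min_le_right (ε / 2) (capF 0 K / 2)
        linarith
      have hmin : 0 < min (ε / 2) (capF 0 K / 2) := lt_min (by linarith) (by linarith)
      have hc3 : capF 0 K ^ s * cs s - δ / 2 < c ^ s * cs s := by
        apply hball
        rw [hc1, Real.dist_eq]
        have h7 := min_le_left (ε / 2) (capF 0 K / 2)
        rw [show capF 0 K - min (ε / 2) (capF 0 K / 2) - capF 0 K =
          -(min (ε / 2) (capF 0 K / 2)) by ring, abs_neg, abs_of_pos hmin]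
        linarith
      obtain ⟨δ', hδ', hd⟩ := h2 2 0 K (by norm_num) le_rfl (by norm_num) hK hne (ρ / 2)
        (min (ε / 2) (capF 0 K / 2)) (by positivity) hmin
      obtain ⟨q, hq1, hq2⟩ : ∃ q : ℝ, 0 < q ∧ q < min δ' 2 := exists_between (lt_min hδ' (by norm_num))
      have hq3 := lt_of_lt_of_le hq2 (min_le_left _ _)
      have hq4 := lt_of_lt_of_le hq2 (min_le_right _ _)
      have h8 := hd q hq1 (by linarith)
      rw [← hc1] at h8
      have hcheb := cheb_mono (cheb_of_cap h0 hN h6 hK hne (by positivity : 0 < ρ / 2) hq1 hq4)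
        hc2.le h8
      have hKc : IsCompact (Metric.cthickening (ρ / 2) K) := hK.cthickening
      obtain ⟨μ, m1, m2, m3⟩ := a3 _ c (hKc.image phi.symm.continuous) hc2 hcheb s (ρ / 2) (δ / 2)
        hs (by positivity) (by positivity)
      refine ⟨μ, m1, ?_, ?_⟩
      · refine measure_mono_null ?_ m2
        apply compl_subset_compl.2
        -- thickening of the image of a thickening
        have him : phi.symm '' (Metric.cthickening (ρ / 2) K) ⊆
            Metric.cthickening (ρ / 2) (phi.symm '' K) := by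
          rw [hK.cthickening_eq_biUnion_closedBall (by positivity),
            hK'.cthickening_eq_biUnion_closedBall (by positivity)]
          rintro _ ⟨x, hx, rfl⟩
          obtain ⟨y, hy, hxy⟩ := mem_iUnion₂.1 hx
          refine mem_iUnion₂.2 ⟨phi.symm y, mem_image_of_mem _ hy, ?_⟩
          rw [Metric.mem_closedBall, phi.symm.dist_map]
          exact hxy
        calc Metric.cthickening (ρ / 2) (phi.symm '' (Metric.cthickening (ρ / 2) K)) ⊆
              Metric.cthickening (ρ / 2) (Metric.cthickening (ρ / 2) (phi.symm '' K)) :=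
              Metric.cthickening_subset_of_subset _ him
          _ ⊆ Metric.cthickening (ρ / 2 + ρ / 2) (phi.symm '' K) :=
              Metric.cthickening_cthickening_subset (by positivity) (by positivity) _
          _ = Metric.cthickening ρ (phi.symm '' K) := by rw [add_halves]
      · refine le_trans (ENNReal.ofReal_le_ofReal ?_) m3
        linarith
  obtain ⟨μ, m1, m2, m3⟩ := key
  refine ⟨μ.map phi, Measure.isProbabilityMeasure_map phi_meas.aemeasurable, ?_, ?_⟩
  · rw [Measure.map_apply phi_meas hK.isClosed.measurableSet.compl]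
    refine measure_mono_null ?_ m2
    intro z hz hzK
    apply hz
    obtain ⟨x, hx, rfl⟩ := hzK
    show phi (phi.symm x) ∈ K
    rw [LinearIsometryEquiv.apply_symm_apply]
    exact hx
  · rw [energy_map]
    exact m3

/-- Bound of the supremum in the definition of the capacity with negative exponent. -/
theorem capF_neg_ge {K : Set (E 2)} {s : ℝ} (hs : 0 < s) (hK : IsCompact K)
    {μ : Measure (E 2)} (h1 : IsProbabilityMeasure μ) (h2 : μ Kᶜ = 0) {t : ℝ} (ht : 0 ≤ t)
    (h : ENNReal.ofReal t ≤ ∫⁻ x, ∫⁻ y, ENNReal.ofReal (dist x y ^ s) ∂μ ∂μ) :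
    t ^ (1 / s) ≤ capF (-s) K := by
  unfold capF
  rw [if_neg (by linarith), if_neg (by linarith)]
  simp only [neg_neg]
  rw [neg_div_neg_eq]
  have hk : ∀ x y : E 2, ENNReal.ofReal (dist x y ^ s) = (edist x y) ^ s := by
    intro x y
    rw [edist_dist, ENNReal.ofReal_rpow_of_nonneg dist_nonneg hs.le]
  have h3 : ENNReal.ofReal t ≤ ⨆ (μ : Measure (E 2)) (_ : μ Set.univ = 1 ∧ μ Kᶜ = 0),
      ∫⁻ x, ∫⁻ y, (edist x y) ^ s ∂μ ∂μ := by
    refine le_trans h ?_
    refine le_iSup_of_le μ (le_iSup_of_le ⟨h1.measure_univ, h2⟩ ?_)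
    exact (lintegral_mono fun x => lintegral_mono fun y => (hk x y).le)
  have hfin : (⨆ (μ : Measure (E 2)) (_ : μ Set.univ = 1 ∧ μ Kᶜ = 0),
      ∫⁻ x, ∫⁻ y, (edist x y) ^ s ∂μ ∂μ) ≤ (Metric.ediam K) ^ s := by
    refine iSup_le fun μ => iSup_le fun hμ => ?_
    have hae : ∀ᵐ x ∂μ, x ∈ K := by rw [ae_iff]; exact hμ.2
    calc ∫⁻ x, ∫⁻ y, (edist x y) ^ s ∂μ ∂μ ≤ ∫⁻ x, (Metric.ediam K) ^ s ∂μ := by
          refine lintegral_mono_ae ?_
          filter_upwards [hae] with x hx
          calc ∫⁻ y, (edist x y) ^ s ∂μ ≤ ∫⁻ y, (Metric.ediam K) ^ s ∂μ := by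
                refine lintegral_mono_ae ?_
                filter_upwards [hae] with y hy
                exact ENNReal.rpow_le_rpow (Metric.edist_le_ediam_of_mem hx hy) hs.le
            _ = (Metric.ediam K) ^ s := by rw [lintegral_const, hμ.1, mul_one]
      _ = (Metric.ediam K) ^ s := by rw [lintegral_const, hμ.1, mul_one]
  have hne : (⨆ (μ : Measure (E 2)) (_ : μ Set.univ = 1 ∧ μ Kᶜ = 0),
      ∫⁻ x, ∫⁻ y, (edist x y) ^ s ∂μ ∂μ) ≠ ∞ := by
    refine ne_top_of_le_ne_top ?_ hfin
    exact ENNReal.rpow_ne_top_of_nonneg hs.le hK.isBounded.ediam_ne_top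
  rw [← ENNReal.toReal_rpow]
  refine Real.rpow_le_rpow ht ?_ (by positivity)
  have := ENNReal.toReal_mono hne h3
  rwa [ENNReal.toReal_ofReal ht] at this

theorem capF_neg_le {K : Set (E 2)} {s : ℝ} (hs : 0 < s) {t : ℝ} (ht : 0 ≤ t)
    (h : ∀ μ : Measure (E 2), IsProbabilityMeasure μ → μ Kᶜ = 0 →
      ∫⁻ x, ∫⁻ y, ENNReal.ofReal (dist x y ^ s) ∂μ ∂μ ≤ ENNReal.ofReal t) :
    capF (-s) K ≤ t ^ (1 / s) := by
  unfold capF
  rw [if_neg (by linarith), if_neg (by linarith)]
  simp only [neg_neg]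
  rw [neg_div_neg_eq]
  have hk : ∀ x y : E 2, ENNReal.ofReal (dist x y ^ s) = (edist x y) ^ s := by
    intro x y
    rw [edist_dist, ENNReal.ofReal_rpow_of_nonneg dist_nonneg hs.le]
  have h3 : (⨆ (μ : Measure (E 2)) (_ : μ Set.univ = 1 ∧ μ Kᶜ = 0),
      ∫⁻ x, ∫⁻ y, (edist x y) ^ s ∂μ ∂μ) ≤ ENNReal.ofReal t := by
    refine iSup_le fun μ => iSup_le fun hμ => ?_
    refine le_trans ?_ (h μ ⟨hμ.1⟩ hμ.2)
    exact (lintegral_mono fun x => lintegral_mono fun y => (hk x y).ge)
  rw [← ENNReal.toReal_rpow]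
  refine Real.rpow_le_rpow ENNReal.toReal_nonneg ?_ (by positivity)
  have := ENNReal.toReal_mono ENNReal.ofReal_ne_top h3
  rwa [ENNReal.toReal_ofReal ht] at this

end Pool.Agent.W784.RR
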