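import Pool.Agent.W784.RR.Core

set_option autoImplicit false
open MeasureTheory Set Filter Topology
open scoped ENNReal NNReal

namespace Pool.Agent.W784.RR

open Pool.Agent.Helper88.RB Pool.Agent.W784.PS

theorem EI_anti {n : ℕ} (s : ℝ) {K L : Set (E n)} (h : K ⊆ L) : EI s L ≤ EI s K := by
  unfold EI
  refine le_iInf fun μ => le_iInf fun h1 => le_iInf fun h2 => ?_
  exact iInf_le_of_le μ (iInf_le_of_le h1 (iInf_le_of_le
    (measure_mono_null (compl_subset_compl.2 h) h2) le_rfl))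

theorem thick_ball {n : ℕ} {K : Set (E n)} (hK : IsCompact K) {ρ : ℝ} (hρ : 0 < ρ) :
    ∀ x ∈ Metric.cthickening ρ K, ∃ c, x ∈ Metric.closedBall c ρ ∧
      Metric.closedBall c ρ ⊆ Metric.cthickening ρ K := by
  intro x hx
  rw [hK.cthickening_eq_biUnion_closedBall hρ.le] at hx
  obtain ⟨c, hc, hxc⟩ := mem_iUnion₂.1 hx
  refine ⟨c, hxc, ?_⟩
  rw [hK.cthickening_eq_biUnion_closedBall hρ.le]
  exact subset_biUnion_of_mem (u := fun x => Metric.closedBall x ρ) hc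

theorem capF_nonneg {n : ℕ} (s : ℝ) (K : Set (E n)) : 0 ≤ capF s K := by
  unfold capF
  split_ifs
  · exact ENNReal.toReal_nonneg
  · exact le_rfl
  · have : 0 ≤ Metric.diam K := Metric.diam_nonneg
    positivity
  · exact ENNReal.toReal_nonneg

theorem capF_eq (h0 : PC0) {n : ℕ} {s : ℝ} (hs : 0 < s) (K : Set (E n)) :
    capF s K = (((EI s K)⁻¹).toReal) ^ (1 / s) := by
  rw [h0 n s K hs, ENNReal.toReal_rpow]

/-- Values of the ball. -/
theorem capF_ball (h0 : PC0) (hB : PBall) {n : ℕ} {s : ℝ} (hn : 1 ≤ n) (hs : 0 < s)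
    (hs2 : (n : ℝ) - 2 < s) (hsn : s < n) :
    0 < mc n s ∧ capF s (Metric.closedBall (0 : E n) 1) = (mc n s) ^ (1 / s) := by
  obtain ⟨h1, h2⟩ := hB n s hn hs hs2 hsn
  refine ⟨h1, ?_⟩
  rw [capF_eq h0 hs, h2, ENNReal.toReal_inv, ENNReal.toReal_ofReal (by positivity), one_div,
    inv_inv]

/-- The main inequality in terms of capacities, for neighbourhoods. -/
theorem cap_nice (h0 : PC0) (hB : PBall) (hCalc : PCalc) (hStar : PStar) (hNewton : PNewton)
    (hH : PH) {n : ℕ} {p q : ℝ} (hn : 1 ≤ n) (hp : 0 < p)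
    (hp2 : (n : ℝ) - 2 < p) (hpq : p < q) (hqn : q < n)
    {K : Set (E n)} (hK : IsCompact K) (hne : K.Nonempty) {ρ : ℝ} (hρ : 0 < ρ) :
    capF p (Metric.closedBall (0 : E n) 1) * capF q (Metric.cthickening ρ K) ≤
      capF q (Metric.closedBall (0 : E n) 1) * capF p (Metric.cthickening ρ K) := by
  have hq : 0 < q := hp.trans hpq
  have hq2 : (n : ℝ) - 2 < q := hp2.trans hpq
  obtain ⟨mp, ep⟩ := capF_ball h0 hB hn hp hp2 (hpq.trans hqn)
  obtain ⟨mq, eq⟩ := capF_ball h0 hB hn hq hq2 hqn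
  have hKc : IsCompact (Metric.cthickening ρ K) := hK.cthickening
  have hKne : (Metric.cthickening ρ K).Nonempty := hne.mono (Metric.self_subset_cthickening _)
  obtain ⟨a1, a2, b1, b2, h⟩ := core_nice hCalc hStar hNewton hH hn hp hp2 hpq hqn hKc hKne hρ
    (thick_ball hK hρ)
  rw [ep, eq, capF_eq h0 hq, capF_eq h0 hp]
  obtain ⟨A, hA⟩ : ∃ A, A = ((EI q (Metric.cthickening ρ K))⁻¹).toReal := ⟨_, rfl⟩
  obtain ⟨B, hB'⟩ : ∃ B, B = ((EI p (Metric.cthickening ρ K))⁻¹).toReal := ⟨_, rfl⟩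
  rw [← hA, ← hB'] at h ⊢
  have hA0 : 0 ≤ A := by rw [hA]; exact ENNReal.toReal_nonneg
  have hB0 : 0 ≤ B := by rw [hB']; exact ENNReal.toReal_nonneg
  have h3 := Real.rpow_le_rpow (by positivity) h (by positivity : 0 ≤ 1 / p)
  rw [Real.mul_rpow (by positivity) (by positivity), Real.div_rpow mp.le (by positivity),
    ← Real.rpow_mul mq.le, ← Real.rpow_mul hA0] at h3
  have e1 : p / q * (1 / p) = 1 / q := by field_simp
  rw [e1] at h3
  have h4 : 0 < (mc n q) ^ (1 / q) := by positivity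
  calc mc n p ^ (1 / p) * A ^ (1 / q) = mc n q ^ (1 / q) *
        (mc n p ^ (1 / p) / mc n q ^ (1 / q) * A ^ (1 / q)) := by field_simp
    _ ≤ mc n q ^ (1 / q) * B ^ (1 / p) := mul_le_mul_of_nonneg_left h3 h4.le

theorem capF_mono (h0 : PC0) {n : ℕ} {s : ℝ} (hs : 0 < s) {K L : Set (E n)} (h : K ⊆ L)
    (hL : EI s L ≠ 0) : capF s K ≤ capF s L := by
  rw [capF_eq h0 hs, capF_eq h0 hs]
  refine Real.rpow_le_rpow ENNReal.toReal_nonneg ?_ (by positivity)
  refine ENNReal.toReal_mono (ENNReal.inv_ne_top.2 hL) ?_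
  exact ENNReal.inv_le_inv.2 (EI_anti s h)

/-- The inequality for all compact sets, exponents above the critical ones. -/
theorem cap_open (h0 : PC0) (h3 : PC3) (hB : PBall) (hCalc : PCalc) (hStar : PStar)
    (hNewton : PNewton) (hH : PH) {n : ℕ} {p q : ℝ} (hn : 1 ≤ n) (hp : 0 < p)
    (hp2 : (n : ℝ) - 2 < p) (hpq : p < q) (hqn : q < n)
    {K : Set (E n)} (hK : IsCompact K) (hne : K.Nonempty) :
    capF p (Metric.closedBall (0 : E n) 1) * capF q K ≤
      capF q (Metric.closedBall (0 : E n) 1) * capF p K := by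
  have hq : 0 < q := hp.trans hpq
  obtain ⟨b, hb⟩ : ∃ b, b = capF q (Metric.closedBall (0 : E n) 1) := ⟨_, rfl⟩
  have hb0 : 0 ≤ b := by rw [hb]; exact capF_nonneg _ _
  have key : ∀ ε : ℝ, 0 < ε → capF p (Metric.closedBall (0 : E n) 1) * capF q K ≤
      b * (capF p K + ε) := by
    intro ε hε
    obtain ⟨ρ, hρ, h⟩ := h3 n p K hn hp.le hK hne ε hε
    have h1 := cap_nice h0 hB hCalc hStar hNewton hH hn hp hp2 hpq hqn hK hne hρ
    have h2 : capF q K ≤ capF q (Metric.cthickening ρ K) :=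
      capF_mono h0 hq (Metric.self_subset_cthickening _) (EI_pos hq hK.cthickening).ne'
    rw [← hb] at h1
    calc _ ≤ capF p (Metric.closedBall (0 : E n) 1) * capF q (Metric.cthickening ρ K) :=
          mul_le_mul_of_nonneg_left h2 (capF_nonneg _ _)
      _ ≤ _ := h1
      _ ≤ _ := mul_le_mul_of_nonneg_left h hb0
  rw [← hb]
  refine le_of_forall_pos_le_add fun δ hδ => ?_
  have := key (δ / (b + 1)) (by positivity)
  have h5 : b * (δ / (b + 1)) ≤ δ := by
    rw [mul_div_assoc', div_le_iff₀ (by positivity)]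
    nlinarith
  nlinarith

/-- The inequality for all compact sets, all exponents `max(0,n-2) ≤ p < q < n`. -/
theorem cap_closed (h0 : PC0) (h1 : PC1) (h2 : PC2) (h3 : PC3) (h4 : PC4) (hB : PBall)
    (hCalc : PCalc) (hStar : PStar) (hNewton : PNewton) (hH : PH) {n : ℕ} {p q : ℝ} (hn : 1 ≤ n)
    (hp : 0 ≤ p) (hp2 : (n : ℝ) - 2 ≤ p) (hpq : p < q) (hqn : q < n)
    {K : Set (E n)} (hK : IsCompact K) (hne : K.Nonempty) :
    capF p (Metric.closedBall (0 : E n) 1) * capF q K ≤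
      capF q (Metric.closedBall (0 : E n) 1) * capF p K := by
  have hq : 0 < q := hp.trans_lt hpq
  have hB1 : IsCompact (Metric.closedBall (0 : E n) 1) := isCompact_closedBall _ _
  have hBne : (Metric.closedBall (0 : E n) 1).Nonempty := ⟨0, by simp⟩
  obtain ⟨b, hb⟩ : ∃ b, b = capF p (Metric.closedBall (0 : E n) 1) := ⟨_, rfl⟩
  obtain ⟨r, hr⟩ : ∃ r, r = capF q (Metric.closedBall (0 : E n) 1) * capF p K := ⟨_, rfl⟩
  obtain ⟨k, hk⟩ : ∃ k, k = capF q K := ⟨_, rfl⟩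
  have hk0 : 0 ≤ k := by rw [hk]; exact capF_nonneg _ _
  have hr0 : 0 ≤ r := by rw [hr]; exact mul_nonneg (capF_nonneg _ _) (capF_nonneg _ _)
  rw [← hb, ← hr, ← hk]
  have key : ∀ ρ ε : ℝ, 0 < ρ → 0 < ε → (b - ε) * k ≤ (1 + ρ) * r := by
    intro ρ ε hρ hε
    obtain ⟨δ, hδ, hd⟩ := h2 n p _ hn hp (hpq.trans hqn) hB1 hBne ρ ε hρ hε
    obtain ⟨p', hp1', hp2'⟩ : ∃ p', p < p' ∧ p' < min (p + δ) q :=
      exists_between (lt_min (by linarith) hpq)
    have hp3' := lt_of_lt_of_le hp2' (min_le_left _ _)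
    have hp4' := lt_of_lt_of_le hp2' (min_le_right _ _)
    have hd' := hd p' hp1' hp3'
    rw [← hb, cthickening_closedBall hρ.le zero_le_one] at hd'
    rw [(h4 n p' (ρ + 1) hn (hp4'.trans hqn) (by positivity)).1] at hd'
    have h5 := cap_open h0 h3 hB hCalc hStar hNewton hH hn (hp.trans_lt hp1')
      (hp2.trans_lt hp1') hp4' hqn hK hne
    have h6 : capF p' K ≤ capF p K := h1 n p p' K hp hp1'.le hK hne
    have h7 : capF p' (Metric.closedBall (0 : E n) 1) * k ≤ r := by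
      rw [hk, hr]
      exact h5.trans (mul_le_mul_of_nonneg_left h6 (capF_nonneg _ _))
    nlinarith
  have lim1 : Tendsto (fun ρ : ℝ => (b - ρ) * k) (𝓝[>] 0) (𝓝 ((b - 0) * k)) := by
    have hc : Continuous (fun ρ : ℝ => (b - ρ) * k) := by fun_prop
    exact (hc.tendsto 0).mono_left nhdsWithin_le_nhds
  have lim2 : Tendsto (fun ρ : ℝ => (1 + ρ) * r) (𝓝[>] 0) (𝓝 ((1 + 0) * r)) := by
    have hc : Continuous (fun ρ : ℝ => (1 + ρ) * r) := by fun_prop
    exact (hc.tendsto 0).mono_left nhdsWithin_le_nhds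
  have := le_of_tendsto_of_tendsto lim1 lim2 (by
    filter_upwards [self_mem_nhdsWithin] with ρ hρ using key ρ ρ hρ hρ)
  simpa using this

/-- Volume version. -/
theorem vol_closed (h0 : PC0) (h1 : PC1) (h2 : PC2) (h3 : PC3) (h4 : PC4) (hB : PBall)
    (hV : PVol) (hCalc : PCalc) (hStar : PStar) (hNewton : PNewton) (hH : PH) {n : ℕ} {p : ℝ}
    (hn : 1 ≤ n) (hp : 0 ≤ p) (hp2 : (n : ℝ) - 2 ≤ p) (hpn : p < n)
    {K : Set (E n)} (hK : IsCompact K) (hne : K.Nonempty) :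
    capF p (Metric.closedBall (0 : E n) 1) *
      ((volume K).toReal / (volume (Metric.closedBall (0 : E n) 1)).toReal) ^ (1 / (n : ℝ)) ≤
      capF p K := by
  obtain ⟨b, hb⟩ : ∃ b, b = capF p (Metric.closedBall (0 : E n) 1) := ⟨_, rfl⟩
  have hb0 : 0 ≤ b := by rw [hb]; exact capF_nonneg _ _
  obtain ⟨v, hv⟩ : ∃ v, v = ((volume K).toReal /
    (volume (Metric.closedBall (0 : E n) 1)).toReal) ^ (1 / (n : ℝ)) := ⟨_, rfl⟩
  rw [← hb, ← hv]
  refine le_of_forall_pos_le_add fun δ hδ => ?_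
  obtain ⟨q, q1, q2, q3, q4, q5⟩ := hV n K hn hK hne (δ / (b + 1)) p (by positivity) hpn
  rw [← hv] at q5
  have h5 := cap_closed h0 h1 h2 h3 h4 hB hCalc hStar hNewton hH hn hp hp2 q1 q4 hK hne
  have h6 : 0 < capF q (Metric.closedBall (0 : E n) 1) := (h4 n q 1 hn q4 one_pos).2
  rw [← hb] at h5
  have h7 : b * (capF q K / capF q (Metric.closedBall (0 : E n) 1)) ≤ capF p K := by
    rw [mul_div_assoc', div_le_iff₀ h6]
    linarith
  have h8 : b * (δ / (b + 1)) ≤ δ := by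
    rw [mul_div_assoc', div_le_iff₀ (by positivity)]
    nlinarith
  have h9 := mul_le_mul_of_nonneg_left q5 hb0
  nlinarith

end Pool.Agent.W784.RR
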