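import Pool.Agent.W784.RR.PartA

set_option autoImplicit false
open MeasureTheory Set Filter Topology
open scoped ENNReal NNReal

namespace Pool.Agent.W784.RR

open Pool.Agent.Helper88.RB Pool.Agent.W784.PS

/-- The unit disc has logarithmic capacity at least `1`. -/
def PDisc : Prop := 1 ≤ capF 0 (Metric.closedBall (0 : E 2) 1)

/-- Isodiametric inequality for the logarithmic capacity. -/
theorem isodiam (h0 : PC0) (h2 : PC2) (hN : PNewton) (a3 : PA3) (a4 : PA4) (a5 : PA5) (h6 : PA6)
    {K : Set (E 2)} (hK : IsCompact K) (hne : K.Nonempty) :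
    2 * capF 0 K ≤ Metric.diam K := by
  have hc0 : 0 ≤ capF 0 K := capF_nonneg _ _
  rcases hc0.eq_or_lt with h | hcpos
  · rw [← h, mul_zero]; exact Metric.diam_nonneg
  by_contra hcon
  push Not at hcon
  have hlt : Metric.diam K / capF 0 K < 2 := by
    rw [div_lt_iff₀ hcpos]; exact hcon
  obtain ⟨s, hs, hs2⟩ := a5.2.2.1 _ hlt
  have hcs := a5.2.2.2 s hs
  obtain ⟨μ, m1, m2, m3⟩ := partA h0 h2 hN a3 a4 h6 hK hne hs hcs
  have hae : ∀ᵐ x ∂μ, x ∈ K := by rw [ae_iff]; exact m2
  have hup : ∫⁻ x, ∫⁻ y, ENNReal.ofReal (dist x y ^ s) ∂μ ∂μ ≤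
      ENNReal.ofReal (Metric.diam K ^ s) := by
    calc ∫⁻ x, ∫⁻ y, ENNReal.ofReal (dist x y ^ s) ∂μ ∂μ ≤
          ∫⁻ x, ENNReal.ofReal (Metric.diam K ^ s) ∂μ := by
          refine lintegral_mono_ae ?_
          filter_upwards [hae] with x hx
          calc ∫⁻ y, ENNReal.ofReal (dist x y ^ s) ∂μ ≤
                ∫⁻ y, ENNReal.ofReal (Metric.diam K ^ s) ∂μ := by
                refine lintegral_mono_ae ?_
                filter_upwards [hae] with y hy
                refine ENNReal.ofReal_le_ofReal (Real.rpow_le_rpow dist_nonneg ?_ hs.le)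
                exact Metric.dist_le_diam_of_mem hK.isBounded hx hy
            _ = ENNReal.ofReal (Metric.diam K ^ s) := by simp
      _ = ENNReal.ofReal (Metric.diam K ^ s) := by simp
  have h7 := m3.trans hup
  rw [ENNReal.ofReal_le_ofReal_iff (by have := Metric.diam_nonneg (s := K); positivity)] at h7
  have h8 := Real.rpow_le_rpow (by positivity) h7 (by positivity : 0 ≤ 1 / s)
  rw [Real.mul_rpow (by positivity) hcs.le, ← Real.rpow_mul hcpos.le,
    ← Real.rpow_mul Metric.diam_nonneg, mul_one_div_cancel hs.ne', Real.rpow_one,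
    Real.rpow_one] at h8
  rw [div_lt_iff₀ hcpos] at hs2
  linarith

theorem exists_diam {X : Type*} [PseudoMetricSpace X] {K : Set X} (hK : IsCompact K)
    (hne : K.Nonempty) : ∃ x ∈ K, ∃ y ∈ K, dist x y = Metric.diam K := by
  have hcd : ContinuousOn (fun p : X × X => dist p.1 p.2) (K ×ˢ K) :=
    (continuous_fst.dist continuous_snd).continuousOn
  obtain ⟨z, hz, hmax⟩ := (hK.prod hK).exists_isMaxOn (hne.prod hne) hcd
  refine ⟨z.1, hz.1, z.2, hz.2,
    le_antisymm (Metric.dist_le_diam_of_mem hK.isBounded hz.1 hz.2) ?_⟩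
  refine Metric.diam_le_of_forall_dist_le dist_nonneg fun a ha b hb => ?_
  exact hmax (show (a, b) ∈ K ×ˢ K from ⟨ha, hb⟩)

/-- Lower bound of the capacities with negative exponents, together with the value of the disc. -/
theorem neg_bound (h0 : PC0) (h2 : PC2) (hN : PNewton) (a3 : PA3) (a4 : PA4) (a5 : PA5)
    (h6 : PA6) {K : Set (E 2)} (hK : IsCompact K) (hne : K.Nonempty) {s : ℝ} (hs : 0 < s) :
    ∃ c : ℝ, 0 < c ∧ capF (-s) (Metric.closedBall (0 : E 2) 1) ≤ c ∧
      c * capF 0 K ≤ capF (-s) K := by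
  have hc0 : 0 ≤ capF 0 K := capF_nonneg _ _
  rcases le_total s 2 with h | h
  · have hcs := a5.2.2.2 s hs
    refine ⟨cs s ^ (1 / s), by positivity, ?_, ?_⟩
    · exact capF_neg_le hs hcs.le (fun μ h1 h2 => a5.1 s μ hs h h1 h2)
    · obtain ⟨μ, m1, m2, m3⟩ := partA h0 h2 hN a3 a4 h6 hK hne hs hcs
      have := capF_neg_ge hs hK m1 m2 (mul_nonneg (Real.rpow_nonneg hc0 _) hcs.le) m3
      rw [Real.mul_rpow (Real.rpow_nonneg hc0 _) hcs.le, ← Real.rpow_mul hc0,
        mul_one_div_cancel hs.ne', Real.rpow_one] at this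
      rw [mul_comm]
      exact this
  · refine ⟨((2:ℝ) ^ (s - 1)) ^ (1 / s), by positivity, ?_, ?_⟩
    · exact capF_neg_le hs (by positivity) (fun μ h1 h2 => a5.2.1 s μ h h1 h2)
    · -- two points at maximal distance
      obtain ⟨x, hx, y, hy, hxy⟩ := exists_diam hK hne
      have hiso := isodiam h0 h2 hN a3 a4 a5 h6 hK hne
      rw [← hxy] at hiso
      obtain ⟨μ, hμ⟩ : ∃ μ : Measure (E 2), μ = (2⁻¹ : ℝ≥0∞) • (Measure.dirac x + Measure.dirac y) :=
        ⟨_, rfl⟩
      have m1 : IsProbabilityMeasure μ := by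
        constructor
        rw [hμ, Measure.smul_apply, Measure.add_apply, measure_univ, measure_univ, smul_eq_mul,
          one_add_one_eq_two]
        exact ENNReal.inv_mul_cancel two_ne_zero ENNReal.ofNat_ne_top
      have m2 : μ Kᶜ = 0 := by
        rw [hμ, Measure.smul_apply, Measure.add_apply,
          Measure.dirac_apply' _ hK.isClosed.measurableSet.compl,
          Measure.dirac_apply' _ hK.isClosed.measurableSet.compl]
        simp [hx, hy]
      have m3 : ENNReal.ofReal (dist x y ^ s / 2) ≤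
          ∫⁻ x, ∫⁻ y, ENNReal.ofReal (dist x y ^ s) ∂μ ∂μ := by
        have hms : ∀ z : E 2, Measurable fun w : E 2 => ENNReal.ofReal (dist z w ^ s) := by
          intro z; fun_prop
        rw [hμ]
        simp only [lintegral_smul_measure, lintegral_add_measure, lintegral_dirac, smul_eq_mul,
          dist_self, Real.zero_rpow hs.ne', ENNReal.ofReal_zero, zero_add, add_zero]
        rw [dist_comm y x]
        rw [← two_mul, ← mul_assoc, ENNReal.ofReal_div_of_pos two_pos, div_eq_mul_inv,
          ENNReal.ofReal_ofNat]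
        rw [show (2⁻¹ : ℝ≥0∞) * 2 = 1 from ENNReal.inv_mul_cancel two_ne_zero ENNReal.ofNat_ne_top,
          one_mul, mul_comm]
      have := capF_neg_ge hs hK m1 m2
        (div_nonneg (Real.rpow_nonneg dist_nonneg _) (by norm_num)) m3
      refine le_trans ?_ this
      have h9 : ((2:ℝ) ^ (s - 1)) ^ (1 / s) * capF 0 K = (((2:ℝ) * capF 0 K) ^ s / 2) ^ (1 / s) := by
        rw [Real.mul_rpow (by norm_num) hc0, Real.rpow_sub_one (by norm_num), 
          show (2:ℝ) ^ s * capF 0 K ^ s / 2 = 2 ^ s / 2 * capF 0 K ^ s by ring,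
          Real.mul_rpow (by positivity) (Real.rpow_nonneg hc0 _), ← Real.rpow_mul hc0,
          mul_one_div_cancel hs.ne', Real.rpow_one]
      rw [h9]
      refine Real.rpow_le_rpow ?_ ?_ (by positivity)
      · exact div_nonneg (Real.rpow_nonneg (mul_nonneg (by norm_num) hc0) _) (by norm_num)
      · refine div_le_div_of_nonneg_right ?_ (by norm_num)
        exact Real.rpow_le_rpow (mul_nonneg (by norm_num) hc0) hiso hs.le

end Pool.Agent.W784.RR
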